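import Mathlib

/-!
Arithmetic input for the modular polynomial method on the symmetric group: the polynomial
`a ↦ (n - 1 - a choose D - 1)`, written in the basis of the binomials `(a choose j)`, `j < D`.
-/

namespace Pool.Agent.PF84

open Finset

/-- `∑ j ≤ r, (-1)^j (X-j choose r-j) (a choose j)`, the polynomial `(X - a choose r)` in `a`. -/
def vand (X r a : ℕ) : ℤ :=
  ∑ j ∈ range (r + 1), (-1) ^ j * ((X - j).choose (r - j) : ℤ) * (a.choose j : ℤ)

lemma vand_zero_left (X a : ℕ) : vand X 0 a = 1 := by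
  simp [vand]

lemma vand_zero (X r : ℕ) : vand X r 0 = (X.choose r : ℤ) := by
  unfold vand
  rw [Finset.sum_eq_single 0]
  · simp
  · intro j _ hj
    rw [Nat.choose_eq_zero_of_lt (show 0 < j by omega)]; simp
  · intro h; simp at h

lemma vand_succ (X r a : ℕ) : vand (X + 1) (r + 1) (a + 1) = vand (X + 1) (r + 1) a - vand X r a := by
  unfold vand
  rw [Finset.sum_range_succ' (fun j => (-1) ^ j * ((X + 1 - j).choose (r + 1 - j) : ℤ) * ((a + 1).choose j : ℤ)),
    Finset.sum_range_succ' (fun j => (-1) ^ j * ((X + 1 - j).choose (r + 1 - j) : ℤ) * (a.choose j : ℤ))]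
  simp only [Nat.choose_zero_right]
  rw [add_sub_right_comm, ← Finset.sum_sub_distrib]
  congr 1
  apply Finset.sum_congr rfl
  intro j _
  rw [Nat.choose_succ_succ', show X + 1 - (j + 1) = X - j by omega,
    show r + 1 - (j + 1) = r - j by omega]
  push_cast
  ring

lemma vand_eq (a : ℕ) : ∀ X r : ℕ, r ≤ X → a ≤ X → vand X r a = ((X - a).choose r : ℤ) := by
  induction a with
  | zero => intro X r _ _; rw [vand_zero]; simp
  | succ a ih =>
    intro X r hr ha
    obtain ⟨X, rfl⟩ : ∃ Y, X = Y + 1 := ⟨X - 1, by omega⟩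
    cases r with
    | zero => rw [vand_zero_left]; simp
    | succ r =>
      rw [vand_succ, ih (X + 1) (r + 1) hr (by omega), ih X r (by omega) (by omega),
        show X + 1 - a = (X - a) + 1 by omega, show X + 1 - (a + 1) = X - a by omega,
        Nat.choose_succ_succ']
      push_cast
      ring

lemma vand_top (r : ℕ) : ∀ X : ℕ, r ≤ X → vand X r (X + 1) = (-1) ^ r := by
  induction r with
  | zero => intro X _; rw [vand_zero_left]; simp
  | succ r ih =>
    intro X hr
    obtain ⟨X, rfl⟩ : ∃ Y, X = Y + 1 := ⟨X - 1, by omega⟩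
    rw [vand_succ, ih X (by omega), vand_eq (X + 1) (X + 1) (r + 1) hr le_rfl]
    simp
    ring

/-- The coefficients. -/
def coef (p n D j : ℕ) : ZMod p :=
  if j < D then (-1) ^ j * ((n - 1 - j).choose (D - 1 - j) : ZMod p) else 0

/-- The polynomial, as a combination of binomial coefficients. -/
def q (p n D a : ℕ) : ZMod p :=
  ∑ j ∈ range (a + 1), (a.choose j : ZMod p) * coef p n D j

lemma q_eq (p n D a : ℕ) (hD : 1 ≤ D) : q p n D a = ((vand (n - 1) (D - 1) a : ℤ) : ZMod p) := by
  unfold q vand coef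
  rw [show D - 1 + 1 = D by omega]
  push_cast
  have h1 : ∑ j ∈ range (a + 1), (a.choose j : ZMod p) *
      (if j < D then (-1) ^ j * ((n - 1 - j).choose (D - 1 - j) : ZMod p) else 0)
      = ∑ j ∈ range (a + 1 + D), (a.choose j : ZMod p) *
      (if j < D then (-1) ^ j * ((n - 1 - j).choose (D - 1 - j) : ZMod p) else 0) := by
    apply Finset.sum_subset
    · intro x hx; simp only [mem_range] at hx ⊢; omega
    · intro x hx hx'
      simp only [mem_range] at hx hx'
      rw [Nat.choose_eq_zero_of_lt (by omega)]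
      simp
  rw [h1]
  have h2 : ∑ j ∈ range D, (-1 : ZMod p) ^ j * ((n - 1 - j).choose (D - 1 - j) : ZMod p) * (a.choose j : ZMod p)
      = ∑ j ∈ range D, (a.choose j : ZMod p) *
      (if j < D then (-1) ^ j * ((n - 1 - j).choose (D - 1 - j) : ZMod p) else 0) := by
    apply Finset.sum_congr rfl
    intro j hj
    rw [if_pos (mem_range.mp hj)]
    ring
  rw [h2]
  symm
  apply Finset.sum_subset
  · intro x hx; simp only [mem_range] at hx ⊢; omega
  · intro x hx hx'
    simp only [mem_range] at hx hx'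
    rw [if_neg (by omega)]
    simp

/-- `p` divides `(D + y - 1 choose y)` if `p^e` divides `D` and `0 < y < p^e`. -/
lemma dvd_choose (p e D y : ℕ) (hp : p.Prime) (hD : 1 ≤ D) (hPD : p ^ e ∣ D) (hy : 0 < y)
    (hyP : y < p ^ e) : p ∣ (D - 1 + y).choose y := by
  by_contra hcon
  have h1 : (D - 1 + y).choose (y - 1 + 1) * (y - 1 + 1) = (D - 1 + y).choose (y - 1) * (D - 1 + y - (y - 1)) :=
    Nat.choose_succ_right_eq _ _
  rw [show y - 1 + 1 = y by omega, show D - 1 + y - (y - 1) = D by omega] at h1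
  have h2 : p ^ e ∣ (D - 1 + y).choose y * y := by
    rw [h1]; exact Dvd.dvd.mul_left hPD _
  have h3 : Nat.Coprime (p ^ e) ((D - 1 + y).choose y) := by
    apply Nat.Coprime.pow_left
    exact (Nat.Prime.coprime_iff_not_dvd hp).mpr hcon
  have h4 : p ^ e ∣ y := h3.dvd_of_dvd_mul_left h2
  exact absurd (Nat.le_of_dvd hy h4) (not_le.mpr hyP)

/-- At `a = n` the polynomial is `±1`. -/
lemma q_top (p n D : ℕ) (hD : 1 ≤ D) (hDn : D ≤ n) : q p n D n = (-1) ^ (D - 1) := by
  rw [q_eq p n D n hD]
  have := vand_top (D - 1) (n - 1) (by omega)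
  rw [show n - 1 + 1 = n by omega] at this
  rw [this]
  push_cast
  rfl

/-- For `a < n`, `a ≠ n - D`, the polynomial vanishes, if `p^e ∣ D` and `n < D + p^e`. -/
lemma q_vanish (p e n D a : ℕ) (hp : p.Prime) (hD : 1 ≤ D) (hPD : p ^ e ∣ D) (hDn : D ≤ n)
    (hn : n < D + p ^ e) (ha : a < n) (ha' : a ≠ n - D) : q p n D a = 0 := by
  rw [q_eq p n D a hD, vand_eq a (n - 1) (D - 1) (by omega) (by omega)]
  by_cases h : n - 1 - a < D - 1
  · rw [Nat.choose_eq_zero_of_lt h]; simp
  · -- x - 1 = n - 1 - a = D - 1 + y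
    obtain ⟨y, hy⟩ := Nat.exists_eq_add_of_le (not_lt.mp h)
    have hy0 : 0 < y := by omega
    have hyP : y < p ^ e := by omega
    have h1 := dvd_choose p e D y hp hD hPD hy0 hyP
    rw [hy]
    have h2 : (D - 1 + y).choose (D - 1) = (D - 1 + y).choose y := by
      rw [Nat.choose_symm_add]
    rw [h2]
    push_cast
    rw [ZMod.natCast_eq_zero_iff]
    exact h1

end Pool.Agent.PF84
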