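import Mathlib

/-!
The block permutations. A block has `2m + 1` points; for `x : Bool → Fin m` the block permutation
is the transposition `(x₀ x₁)` or the 3-cycle `(c x₀ x₁)`. Two block permutations differ at `0`
points if `x = y`, at `3` points if exactly one coordinate differs, and at `4` (respectively `5`)
points if both coordinates differ.
-/

namespace Pool.Agent.PF84

open Finset

/-- The points of a block. -/
abbrev Blk (m : ℕ) : Type := (Bool × Fin m) ⊕ Unit

/-- The block permutation. -/
def bp (two : Bool) {m : ℕ} (x : Bool → Fin m) : Equiv.Perm (Blk m) :=
  if two then Equiv.swap (Sum.inr ()) (Sum.inl (false, x false)) *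
      Equiv.swap (Sum.inl (false, x false)) (Sum.inl (true, x true))
  else Equiv.swap (Sum.inl (false, x false)) (Sum.inl (true, x true))

variable {m : ℕ}

lemma bp_ff (x : Bool → Fin m) (i : Fin m) :
    bp false x (Sum.inl (false, i)) = if i = x false then Sum.inl (true, x true) else Sum.inl (false, i) := by
  simp [bp, Equiv.swap_apply_def]

lemma bp_ft (x : Bool → Fin m) (i : Fin m) :
    bp false x (Sum.inl (true, i)) = if i = x true then Sum.inl (false, x false) else Sum.inl (true, i) := by
  simp [bp, Equiv.swap_apply_def]

lemma bp_fu (x : Bool → Fin m) : bp false x (Sum.inr ()) = Sum.inr () := by
  simp [bp, Equiv.swap_apply_def]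

lemma bp_tf (x : Bool → Fin m) (i : Fin m) :
    bp true x (Sum.inl (false, i)) = if i = x false then Sum.inl (true, x true) else Sum.inl (false, i) := by
  by_cases h : i = x false
  · simp [bp, Equiv.swap_apply_def, h]
  · simp [bp, Equiv.swap_apply_def, h]

lemma bp_tt (x : Bool → Fin m) (i : Fin m) :
    bp true x (Sum.inl (true, i)) = if i = x true then Sum.inr () else Sum.inl (true, i) := by
  by_cases h : i = x true
  · simp [bp, h]
  · simp [bp, Equiv.swap_apply_def, h]

lemma bp_tu (x : Bool → Fin m) : bp true x (Sum.inr ()) = Sum.inl (false, x false) := by
  simp [bp, Equiv.swap_apply_def]

/-- The extra cost of a full block. -/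
def extra (two : Bool) : ℕ := if two then 2 else 1

lemma card_three {γ : Type*} [DecidableEq γ] {a b c : γ} (h1 : a ≠ b) (h2 : a ≠ c) (h3 : b ≠ c) :
    ({a, b, c} : Finset γ).card = 3 := by
  rw [Finset.card_insert_of_notMem (by simp [h1, h2]), Finset.card_insert_of_notMem (by simp [h3]),
    Finset.card_singleton]

lemma bp_diff (two : Bool) (x y : Bool → Fin m) :
    (Finset.univ.filter fun p => bp two x p ≠ bp two y p).card =
      3 * (if x false ≠ y false ∨ x true ≠ y true then 1 else 0)
        + extra two * (if x false ≠ y false ∧ x true ≠ y true then 1 else 0) := by
  classical
  by_cases h0 : x false = y false <;> by_cases h1 : x true = y true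
  · have : x = y := by funext b; cases b <;> assumption
    subst this
    simp
  · rw [if_pos (Or.inr h1), if_neg (fun h => h.1 h0)]
    cases two
    · have e : (Finset.univ.filter fun p => bp false x p ≠ bp false y p)
          = {Sum.inl (false, x false), Sum.inl (true, x true), Sum.inl (true, y true)} := by
        ext p
        rw [Finset.mem_filter]
        simp only [Finset.mem_univ, true_and, Finset.mem_insert, Finset.mem_singleton]
        rcases p with ⟨b, i⟩ | u
        · cases b
          · rw [bp_ff, bp_ff, ← h0]
            by_cases hi : i = x false
            · simp [hi, h1]
            · simp [hi]
          · rw [bp_ft, bp_ft, ← h0]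
            by_cases hi : i = x true
            · subst hi
              simp [h1]
            · by_cases hi' : i = y true
              · subst hi'
                simp [hi]
              · simp [hi, hi']
        · rw [bp_fu, bp_fu]; simp
      rw [e, card_three (by simp) (by simp) (by simpa using h1)]
      simp
    · have e : (Finset.univ.filter fun p => bp true x p ≠ bp true y p)
          = {Sum.inl (false, x false), Sum.inl (true, x true), Sum.inl (true, y true)} := by
        ext p
        rw [Finset.mem_filter]
        simp only [Finset.mem_univ, true_and, Finset.mem_insert, Finset.mem_singleton]
        rcases p with ⟨b, i⟩ | u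
        · cases b
          · rw [bp_tf, bp_tf, ← h0]
            by_cases hi : i = x false
            · simp [hi, h1]
            · simp [hi]
          · rw [bp_tt, bp_tt]
            by_cases hi : i = x true
            · subst hi
              simp [h1]
            · by_cases hi' : i = y true
              · subst hi'
                simp [hi]
              · simp [hi, hi']
        · rw [bp_tu, bp_tu, h0]; simp
      rw [e, card_three (by simp) (by simp) (by simpa using h1)]
      simp
  · rw [if_pos (Or.inl h0), if_neg (fun h => h.2 h1)]
    cases two
    · have e : (Finset.univ.filter fun p => bp false x p ≠ bp false y p)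
          = {Sum.inl (true, x true), Sum.inl (false, x false), Sum.inl (false, y false)} := by
        ext p
        rw [Finset.mem_filter]
        simp only [Finset.mem_univ, true_and, Finset.mem_insert, Finset.mem_singleton]
        rcases p with ⟨b, i⟩ | u
        · cases b
          · rw [bp_ff, bp_ff, ← h1]
            by_cases hi : i = x false
            · subst hi
              simp [h0]
            · by_cases hi' : i = y false
              · subst hi'
                simp [hi]
              · simp [hi, hi']
          · rw [bp_ft, bp_ft, ← h1]
            by_cases hi : i = x true
            · simp [hi, h0]
            · simp [hi]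
        · rw [bp_fu, bp_fu]; simp
      rw [e, card_three (by simp) (by simp) (by simpa using h0)]
      simp
    · have e : (Finset.univ.filter fun p => bp true x p ≠ bp true y p)
          = {Sum.inr (), Sum.inl (false, x false), Sum.inl (false, y false)} := by
        ext p
        rw [Finset.mem_filter]
        simp only [Finset.mem_univ, true_and, Finset.mem_insert, Finset.mem_singleton]
        rcases p with ⟨b, i⟩ | u
        · cases b
          · rw [bp_tf, bp_tf, ← h1]
            by_cases hi : i = x false
            · subst hi
              simp [h0]
            · by_cases hi' : i = y false
              · subst hi'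
                simp [hi]
              · simp [hi, hi']
          · rw [bp_tt, bp_tt, ← h1]
            by_cases hi : i = x true
            · simp [hi]
            · simp [hi]
        · rw [bp_tu, bp_tu]; simp [h0]
      rw [e, card_three (by simp) (by simp) (by simpa using h0)]
      simp
  · rw [if_pos (Or.inl h0), if_pos ⟨h0, h1⟩]
    cases two
    · have e : (Finset.univ.filter fun p => bp false x p ≠ bp false y p)
          = insert (Sum.inl (true, y true)) {Sum.inl (true, x true), Sum.inl (false, x false), Sum.inl (false, y false)} := by
        ext p
        rw [Finset.mem_filter]
        simp only [Finset.mem_univ, true_and, Finset.mem_insert, Finset.mem_singleton]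
        rcases p with ⟨b, i⟩ | u
        · cases b
          · rw [bp_ff, bp_ff]
            by_cases hi : i = x false
            · subst hi
              simp [h0]
            · by_cases hi' : i = y false
              · subst hi'
                simp [hi]
              · simp [hi, hi']
          · rw [bp_ft, bp_ft]
            by_cases hi : i = x true
            · subst hi
              simp [h1]
            · by_cases hi' : i = y true
              · subst hi'
                simp [hi]
              · simp [hi, hi']
        · rw [bp_fu, bp_fu]; simp
      rw [e, Finset.card_insert_of_notMem (by simp [Ne.symm h1]),
        card_three (by simp) (by simp) (by simpa using h0)]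
      simp [extra]
    · have e : (Finset.univ.filter fun p => bp true x p ≠ bp true y p)
          = insert (Sum.inl (true, x true)) (insert (Sum.inl (true, y true)) {Sum.inr (), Sum.inl (false, x false), Sum.inl (false, y false)}) := by
        ext p
        rw [Finset.mem_filter]
        simp only [Finset.mem_univ, true_and, Finset.mem_insert, Finset.mem_singleton]
        rcases p with ⟨b, i⟩ | u
        · cases b
          · rw [bp_tf, bp_tf]
            by_cases hi : i = x false
            · subst hi
              simp [h0]
            · by_cases hi' : i = y false
              · subst hi'
                simp [hi]
              · simp [hi, hi']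
          · rw [bp_tt, bp_tt]
            by_cases hi : i = x true
            · subst hi
              simp [h1]
            · by_cases hi' : i = y true
              · subst hi'
                simp [hi]
              · simp [hi, hi']
        · rw [bp_tu, bp_tu]; simp [h0]
      rw [e, Finset.card_insert_of_notMem (by simp [h1]), Finset.card_insert_of_notMem (by simp),
        card_three (by simp) (by simp) (by simpa using h0)]
      simp [extra]

end Pool.Agent.PF84
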