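import Mathlib

/-!
A combinatorial lemma on union-closed families. Coordinates are pairs `(b, ε)`, `b` a block,
`ε : Bool`. If every `e`-set of coordinates contains a nonempty member of the family, and there
are many blocks, then some member meets exactly `e` blocks, each in one coordinate, and some member
meets exactly `e` blocks, one of them in both coordinates and the others in one.
-/

namespace Pool.Agent.PF84

open Finset

set_option linter.unusedSectionVars false

variable {B : Type*} [Fintype B] [DecidableEq B]

/-- The blocks met by a set. -/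
def touched (S : Finset (B × Bool)) : Finset B := S.image Prod.fst

/-- The blocks contained in a set. -/
def full (S : Finset (B × Bool)) : Finset B :=
  Finset.univ.filter fun b => (b, false) ∈ S ∧ (b, true) ∈ S

lemma mem_touched {S : Finset (B × Bool)} {b : B} :
    b ∈ touched S ↔ (b, false) ∈ S ∨ (b, true) ∈ S := by
  unfold touched
  rw [Finset.mem_image]
  constructor
  · rintro ⟨⟨b', ε⟩, h, rfl⟩
    cases ε
    · exact Or.inl h
    · exact Or.inr h
  · rintro (h | h)
    · exact ⟨_, h, rfl⟩
    · exact ⟨_, h, rfl⟩

lemma mem_full {S : Finset (B × Bool)} {b : B} :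
    b ∈ full S ↔ (b, false) ∈ S ∧ (b, true) ∈ S := by simp [full]

/-- The family of members contains the union of the sets `insert (b, ε) T`. -/
lemma union_mem {M : Finset (B × Bool) → Prop}
    (hM : ∀ S S', S.Nonempty → S'.Nonempty → M S → M S' → M (S ∪ S'))
    (T : Finset (B × Bool)) (ε : Bool) (Q : Finset B) (hQ : Q.Nonempty)
    (h : ∀ b ∈ Q, M (insert (b, ε) T)) : M (T ∪ Q.image (fun b => (b, ε))) := by
  classical
  induction hQ using Finset.Nonempty.cons_induction with
  | singleton a =>
    have := h a (by simp)
    have e : T ∪ ({a} : Finset B).image (fun b => (b, ε)) = insert (a, ε) T := by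
      ext x; simp [or_comm]
    rw [e]; exact this
  | cons a s ha hs ih =>
    have h1 := ih (fun b hb => h b (by simp [hb]))
    have h2 := h a (by simp)
    have h3 := hM _ _ (Finset.insert_nonempty (a, ε) T)
      (by
        obtain ⟨b, hb⟩ := hs
        exact ⟨(b, ε), Finset.mem_union_right _ (Finset.mem_image.mpr ⟨b, hb, rfl⟩)⟩) h2 h1
    have e : insert (a, ε) T ∪ (T ∪ s.image (fun b => (b, ε))) = T ∪ (Finset.cons a s ha).image (fun b => (b, ε)) := by
      ext x
      simp only [Finset.mem_union, Finset.mem_insert, Finset.mem_image, Finset.mem_cons]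
      constructor
      · rintro ((rfl | h) | (h | ⟨b, hb, rfl⟩))
        · exact Or.inr ⟨a, Or.inl rfl, rfl⟩
        · exact Or.inl h
        · exact Or.inl h
        · exact Or.inr ⟨b, Or.inr hb, rfl⟩
      · rintro (h | ⟨b, (rfl | hb), rfl⟩)
        · exact Or.inl (Or.inr h)
        · exact Or.inl (Or.inl rfl)
        · exact Or.inr (Or.inr ⟨b, hb, rfl⟩)
    rw [e] at h3
    exact h3

/-- The structure found in the family. -/
lemma exists_structure (e : ℕ) (M : Finset (B × Bool) → Prop)
    (hE : ∀ E : Finset (B × Bool), E.card = e → ∃ S ⊆ E, S.Nonempty ∧ M S)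
    (hB : e + 2 ^ e * 2 ^ e * e ≤ Fintype.card B) :
    ∃ (Q : Finset B) (T : Bool → Finset (B × Bool)), e ≤ Q.card ∧
      (T false ∪ T true).card < e ∧
      (∀ b, ¬ ((b, false) ∈ T false ∪ T true ∧ (b, true) ∈ T false ∪ T true)) ∧
      (∀ b ∈ Q, b ∉ touched (T false ∪ T true)) ∧
      (∀ b ∈ Q, ∀ ε, M (insert (b, ε) (T ε))) := by
  classical
  -- a maximal transversal set containing no member
  let P : Finset (Finset (B × Bool)) := Finset.univ.filter (fun Y =>
    (∀ b, ¬ ((b, false) ∈ Y ∧ (b, true) ∈ Y)) ∧ ∀ S ⊆ Y, S.Nonempty → ¬ M S)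
  have hne : P.Nonempty := by
    refine ⟨∅, ?_⟩
    rw [Finset.mem_filter]
    refine ⟨Finset.mem_univ _, by simp, ?_⟩
    intro S hS hSne
    rw [Finset.subset_empty] at hS
    subst hS
    exact absurd hSne (by simp)
  obtain ⟨Y, hYP, hYmax⟩ := Finset.exists_max_image P Finset.card hne
  obtain ⟨hYt, hYf⟩ := (Finset.mem_filter.mp hYP).2
  have hYc : Y.card < e := by
    by_contra hcon
    push Not at hcon
    obtain ⟨E, hEY, hEc⟩ := Finset.exists_subset_card_eq hcon
    obtain ⟨S, hSE, hSne, hMS⟩ := hE E hEc
    exact hYf S (hSE.trans hEY) hSne hMS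
  -- the types
  have htype : ∀ b ε, ∃ T : Finset (B × Bool), b ∉ touched Y → (T ⊆ Y ∧ M (insert (b, ε) T)) := by
    intro b ε
    by_cases hb : b ∈ touched Y
    · exact ⟨∅, fun h => absurd hb h⟩
    · have hb' := hb
      rw [mem_touched] at hb'
      push Not at hb'
      have hnot : insert (b, ε) Y ∉ P := by
        intro hmem
        have := hYmax _ hmem
        rw [Finset.card_insert_of_notMem (by cases ε; exacts [hb'.1, hb'.2])] at this
        omega
      have htr : ∀ c, ¬ ((c, false) ∈ insert (b, ε) Y ∧ (c, true) ∈ insert (b, ε) Y) := by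
        intro c hc
        rw [Finset.mem_insert, Finset.mem_insert] at hc
        obtain ⟨h1, h2⟩ := hc
        rcases h1 with h1 | h1 <;> rcases h2 with h2 | h2
        · have e1 := congrArg Prod.snd h1
          have e2 := congrArg Prod.snd h2
          simp at e1 e2
          rw [e1] at e2
          exact absurd e2 (by simp)
        · have e1 := congrArg Prod.fst h1
          simp at e1
          subst e1
          exact hb'.2 h2
        · have e1 := congrArg Prod.fst h2
          simp at e1
          subst e1
          exact hb'.1 h1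
        · exact hYt c ⟨h1, h2⟩
      have hex : ∃ S ⊆ insert (b, ε) Y, S.Nonempty ∧ M S := by
        by_contra hcon
        push Not at hcon
        apply hnot
        rw [Finset.mem_filter]
        exact ⟨Finset.mem_univ _, htr, hcon⟩
      obtain ⟨S, hS, hSne, hMS⟩ := hex
      have hmem : (b, ε) ∈ S := by
        by_contra hcon
        apply hYf S ?_ hSne hMS
        intro x hx
        rcases Finset.mem_insert.mp (hS hx) with rfl | h
        · exact absurd hx hcon
        · exact h
      refine ⟨S.erase (b, ε), fun _ => ⟨?_, ?_⟩⟩
      · intro x hx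
        rw [Finset.mem_erase] at hx
        rcases Finset.mem_insert.mp (hS hx.2) with h | h
        · exact absurd h hx.1
        · exact h
      · rw [Finset.insert_erase hmem]; exact hMS
  choose T hT using htype
  -- pigeonhole over the untouched blocks
  let U : Finset B := Finset.univ \ touched Y
  have hmaps : ∀ b ∈ U, (fun b => (T b false, T b true)) b ∈ Y.powerset ×ˢ Y.powerset := by
    intro b hb
    have hb' : b ∉ touched Y := (Finset.mem_sdiff.mp hb).2
    rw [Finset.mem_product, Finset.mem_powerset, Finset.mem_powerset]
    exact ⟨(hT b false hb').1, (hT b true hb').1⟩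
  have hUc : 2 ^ e * 2 ^ e * e ≤ U.card := by
    have h1 : (touched Y).card ≤ Y.card := Finset.card_image_le
    have h2 : U.card = Fintype.card B - (touched Y).card := by
      rw [Finset.card_sdiff_of_subset (Finset.subset_univ _), Finset.card_univ]
    omega
  have hpig : ∃ y ∈ Y.powerset ×ˢ Y.powerset,
      e ≤ (U.filter (fun b => (T b false, T b true) = y)).card := by
    apply Finset.exists_le_card_fiber_of_mul_le_card_of_maps_to hmaps
    · exact ⟨(∅, ∅), by simp⟩
    · rw [Finset.card_product, Finset.card_powerset]
      have : 2 ^ Y.card ≤ 2 ^ e := Nat.pow_le_pow_right (by norm_num) hYc.le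
      calc 2 ^ Y.card * 2 ^ Y.card * e ≤ 2 ^ e * 2 ^ e * e := by gcongr
        _ ≤ U.card := hUc
  obtain ⟨⟨T0, T1⟩, hTmem, hfib⟩ := hpig
  rw [Finset.mem_product, Finset.mem_powerset, Finset.mem_powerset] at hTmem
  refine ⟨U.filter (fun b => (T b false, T b true) = (T0, T1)),
    fun ε => if ε then T1 else T0, hfib, ?_, ?_, ?_, ?_⟩
  · have : (if false = true then T1 else T0) ∪ (if true = true then T1 else T0) ⊆ Y := by
      simp only [Bool.false_eq_true, if_false, if_true]
      exact Finset.union_subset hTmem.1 hTmem.2
    exact (Finset.card_le_card this).trans_lt hYc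
  · intro b hb
    simp only [Bool.false_eq_true, if_false, if_true] at hb
    exact hYt b ⟨(Finset.union_subset hTmem.1 hTmem.2) hb.1, (Finset.union_subset hTmem.1 hTmem.2) hb.2⟩
  · intro b hb hbt
    simp only [Bool.false_eq_true, if_false, if_true] at hbt
    rw [Finset.mem_filter] at hb
    have hb' : b ∉ touched Y := (Finset.mem_sdiff.mp hb.1).2
    apply hb'
    exact Finset.image_subset_image (Finset.union_subset hTmem.1 hTmem.2) hbt
  · intro b hb ε
    rw [Finset.mem_filter] at hb
    have hb' : b ∉ touched Y := (Finset.mem_sdiff.mp hb.1).2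
    have h1 : T b false = T0 := congrArg Prod.fst hb.2
    have h2 : T b true = T1 := congrArg Prod.snd hb.2
    cases ε
    · simp only [Bool.false_eq_true, if_false]
      rw [← h1]; exact (hT b false hb').2
    · simp only [if_true]
      rw [← h2]; exact (hT b true hb').2

/-- A member meeting exactly `e` blocks, none of them full; and a member meeting exactly `e`
blocks, exactly one of them full. -/
theorem exists_member (e : ℕ) (M : Finset (B × Bool) → Prop)
    (hM : ∀ S S', S.Nonempty → S'.Nonempty → M S → M S' → M (S ∪ S'))
    (hE : ∀ E : Finset (B × Bool), E.card = e → ∃ S ⊆ E, S.Nonempty ∧ M S)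
    (hB : e + 2 ^ e * 2 ^ e * e ≤ Fintype.card B) (r : ℕ) (hr : r ≤ 1) :
    ∃ S : Finset (B × Bool), S.Nonempty ∧ M S ∧ (touched S).card = e ∧ (full S).card = r := by
  classical
  obtain ⟨Q, T, hQ, hTc, hTt, hQT, hQM⟩ := exists_structure e M hE hB
  have hcard : ∀ Z ⊆ T false ∪ T true, (touched Z).card = Z.card := by
    intro Z hZ
    apply Finset.card_image_of_injOn
    rintro ⟨b, ε⟩ hx ⟨b', ε'⟩ hy hxy
    simp only at hxy
    subst hxy
    have hx' := hZ hx
    have hy' := hZ hy
    cases ε <;> cases ε'
    · rfl
    · exact absurd ⟨hx', hy'⟩ (hTt b)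
    · exact absurd ⟨hy', hx'⟩ (hTt b)
    · rfl
  rcases Nat.le_one_iff_eq_zero_or_eq_one.mp hr with rfl | rfl
  · -- use only the first coordinates
    have hT0 : (T false).card < e := lt_of_le_of_lt (Finset.card_le_card Finset.subset_union_left) hTc
    obtain ⟨Q', hQ'Q, hQ'c⟩ := Finset.exists_subset_card_eq (show e - (T false).card ≤ Q.card by omega)
    have hQ'ne : Q'.Nonempty := Finset.card_pos.mp (by omega)
    have hmem := union_mem hM (T false) false Q' hQ'ne (fun b hb => hQM b (hQ'Q hb) false)
    refine ⟨_, ?_, hmem, ?_, ?_⟩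
    · obtain ⟨b, hb⟩ := hQ'ne
      exact ⟨(b, false), Finset.mem_union_right _ (Finset.mem_image.mpr ⟨b, hb, rfl⟩)⟩
    · have e1 : touched (T false ∪ Q'.image (fun b => (b, false))) = touched (T false) ∪ Q' := by
        unfold touched
        rw [Finset.image_union, Finset.image_image]
        congr 1
        simp [Function.comp_def]
      rw [e1, Finset.card_union_of_disjoint, hcard _ Finset.subset_union_left]
      · omega
      · rw [Finset.disjoint_left]
        intro b hb hb'
        exact hQT b (hQ'Q hb') (Finset.image_subset_image Finset.subset_union_left hb)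
    · rw [Finset.card_eq_zero, Finset.eq_empty_iff_forall_notMem]
      intro b hb
      rw [mem_full, Finset.mem_union, Finset.mem_union] at hb
      obtain ⟨h1, h2⟩ := hb
      have h2' : (b, true) ∈ T false := by
        rcases h2 with h2 | h2
        · exact h2
        · rw [Finset.mem_image] at h2
          obtain ⟨c, _, hc⟩ := h2
          exact absurd (congrArg Prod.snd hc) (by simp)
      rcases h1 with h1 | h1
      · exact hTt b ⟨Finset.mem_union_left _ h1, Finset.mem_union_left _ h2'⟩
      · rw [Finset.mem_image] at h1
        obtain ⟨c, hc, hcb⟩ := h1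
        have : c = b := congrArg Prod.fst hcb
        subst this
        apply hQT c (hQ'Q hc)
        rw [mem_touched]
        exact Or.inr (Finset.mem_union_left _ h2')
  · obtain ⟨Q', hQ'Q, hQ'c⟩ := Finset.exists_subset_card_eq
      (show e - (T false ∪ T true).card ≤ Q.card by omega)
    have hQ'ne : Q'.Nonempty := Finset.card_pos.mp (by omega)
    obtain ⟨b₀, hb₀⟩ := hQ'ne
    have hmem0 := union_mem hM (T false) false Q' ⟨b₀, hb₀⟩ (fun b hb => hQM b (hQ'Q hb) false)
    have hmem1 := hQM b₀ (hQ'Q hb₀) true
    have hmem := hM _ _ ⟨(b₀, false), Finset.mem_union_right _ (Finset.mem_image.mpr ⟨b₀, hb₀, rfl⟩)⟩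
      (Finset.insert_nonempty _ _) hmem0 hmem1
    have eS : (T false ∪ Q'.image (fun b => (b, false))) ∪ insert (b₀, true) (T true)
        = (T false ∪ T true) ∪ (Q'.image (fun b => (b, false)) ∪ {(b₀, true)}) := by
      ext x
      simp only [Finset.mem_union, Finset.mem_insert, Finset.mem_singleton]
      tauto
    rw [eS] at hmem
    refine ⟨_, ?_, hmem, ?_, ?_⟩
    · exact ⟨(b₀, true), Finset.mem_union_right _ (Finset.mem_union_right _ (by simp))⟩
    · have e1 : touched ((T false ∪ T true) ∪ (Q'.image (fun b => (b, false)) ∪ {(b₀, true)}))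
          = touched (T false ∪ T true) ∪ Q' := by
        ext b
        rw [Finset.mem_union, mem_touched, mem_touched]
        simp only [Finset.mem_union, Finset.mem_image, Finset.mem_singleton, Prod.mk.injEq,
          Bool.false_eq_true, and_false, exists_false, and_true, exists_eq_right]
        constructor
        · rintro ((h | h | h) | (h | h | h))
          · exact Or.inl (Or.inl h)
          · exact Or.inr h
          · exact absurd h (by simp)
          · exact Or.inl (Or.inr h)
          · exact absurd h (by simp)
          · rw [h]; exact Or.inr hb₀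
        · rintro ((h | h) | h)
          · exact Or.inl (Or.inl h)
          · exact Or.inr (Or.inl h)
          · exact Or.inl (Or.inr (Or.inl h))
      rw [e1, Finset.card_union_of_disjoint, hcard _ subset_rfl]
      · omega
      · rw [Finset.disjoint_left]
        intro b hb hb'
        exact hQT b (hQ'Q hb') hb
    · rw [Finset.card_eq_one]
      refine ⟨b₀, ?_⟩
      ext b
      rw [mem_full, Finset.mem_singleton]
      simp only [Finset.mem_union, Finset.mem_image, Finset.mem_singleton]
      constructor
      · rintro ⟨h1, h2⟩
        rcases h2 with h2 | h2 | h2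
        · exfalso
          rcases h1 with h1 | h1 | h1
          · exact hTt b ⟨Finset.mem_union.mpr h1, Finset.mem_union.mpr h2⟩
          · obtain ⟨c, hc, hcb⟩ := h1
            have : c = b := congrArg Prod.fst hcb
            subst this
            apply hQT c (hQ'Q hc)
            rw [mem_touched]
            exact Or.inr (Finset.mem_union.mpr h2)
          · exact absurd (congrArg Prod.snd h1) (by simp)
        · obtain ⟨c, hc, hcb⟩ := h2
          exact absurd (congrArg Prod.snd hcb) (by simp)
        · exact congrArg Prod.fst h2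
      · rintro rfl
        exact ⟨Or.inr (Or.inl ⟨b, hb₀, rfl⟩), Or.inr (Or.inr rfl)⟩

end Pool.Agent.PF84
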