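import Pool.Agent.PF84.Homog
import Pool.Agent.PF84.Comb

/-!
A bound in the cube `(B × Bool → Fin m)`: if no two distinct members of `F` have a disagreement
set of cost exactly `3e + ρ` (a block met in one coordinate costs `3`, a full block costs `3 + c`,
and `ρ = 0` or `ρ = c`), then `|F| ≤ C m^(2|B| - e)`.
-/

namespace Pool.Agent.PF84

open Finset

set_option linter.unusedSectionVars false

variable {B : Type} [Fintype B] [DecidableEq B]

/-- The cost of a set of coordinates. -/
def cost (c : ℕ) (S : Finset (B × Bool)) : ℕ := 3 * (touched S).card + c * (full S).card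

theorem cube_bound (e : ℕ) (c ρ : ℕ) (hρ : ρ = 0 ∨ ρ = c)
    (hB : e + 2 ^ e * 2 ^ e * e ≤ Fintype.card B) :
    ∃ C : ℕ, ∀ (m : ℕ) (F : Finset (B × Bool → Fin m)),
      (∀ f ∈ F, ∀ g ∈ F, f ≠ g → cost c (agrF f g)ᶜ ≠ 3 * e + ρ) →
      F.card ≤ C * m ^ (2 * Fintype.card B - e) := by
  classical
  obtain ⟨C, hC⟩ := homog (B × Bool) (Fintype.card (B × Bool) + 2)
  refine ⟨C, ?_⟩
  intro m F hF
  obtain ⟨F', hF'F, hcard, hhom⟩ := hC F
  refine hcard.trans ?_
  gcongr
  by_contra hcon
  push Not at hcon
  have hF'ne : F'.Nonempty := Finset.card_pos.mp (by omega)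
  have hcI : Fintype.card (B × Bool) = 2 * Fintype.card B := by
    rw [Fintype.card_prod, Fintype.card_bool, mul_comm]
  set N := Fintype.card (B × Bool) + 2 with hN
  have hM : ∀ S S' : Finset (B × Bool), S.Nonempty → S'.Nonempty → Good N F' Sᶜ → Good N F' S'ᶜ →
      Good N F' (S ∪ S')ᶜ := by
    intro S S' hS hS' h1 h2
    have h3 := not_bad_inter (by omega) hF'ne h1 h2
    rw [← Finset.compl_union] at h3
    rcases hhom (S ∪ S')ᶜ (by
      intro h
      rw [Finset.compl_eq_univ_iff] at h
      obtain ⟨x, hx⟩ := hS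
      have : x ∈ S ∪ S' := Finset.mem_union_left _ hx
      rw [h] at this
      simp at this) with h4 | h4
    · exact h4
    · exact absurd h4 h3
  have hE : ∀ E : Finset (B × Bool), E.card = e → ∃ S ⊆ E, S.Nonempty ∧ Good N F' Sᶜ := by
    intro E hEc
    -- restriction to the complement is not injective
    have hlt : Fintype.card ((Eᶜ : Finset (B × Bool)) → Fin m) < F'.card := by
      rw [Fintype.card_fun, Fintype.card_fin, Fintype.card_coe, Finset.card_compl, hcI, hEc]
      exact hcon
    have hlt' : (Finset.univ : Finset ((Eᶜ : Finset (B × Bool)) → Fin m)).card < F'.card := by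
      rw [Finset.card_univ]; exact hlt
    obtain ⟨f, hf, g, hg, hne, hfg⟩ := Finset.exists_ne_map_eq_of_card_lt_of_maps_to hlt'
      (f := fun f : B × Bool → Fin m => (fun i : (Eᶜ : Finset (B × Bool)) => f i))
      (fun _ _ => Finset.mem_univ _)
    refine ⟨(agrF f g)ᶜ, ?_, ?_, ?_⟩
    · intro i hi
      by_contra hiE
      rw [Finset.mem_compl] at hi
      apply hi
      rw [mem_agrF]
      exact congrFun hfg ⟨i, Finset.mem_compl.mpr hiE⟩
    · by_contra hemp
      rw [Finset.not_nonempty_iff_eq_empty] at hemp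
      apply hne
      funext i
      have : i ∉ (agrF f g)ᶜ := by rw [hemp]; simp
      rw [Finset.mem_compl, not_not, mem_agrF] at this
      exact this
    · rw [compl_compl]
      rcases hhom (agrF f g) (by
        intro h
        apply hne
        funext i
        have : i ∈ agrF f g := by rw [h]; simp
        rwa [mem_agrF] at this) with h4 | h4
      · exact h4
      · exact absurd rfl (h4 f hf g hg)
  have hfinal : ∀ r : ℕ, r ≤ 1 → 3 * e + c * r = 3 * e + ρ → False := by
    intro r hr hcr
    obtain ⟨S, hSne, hMS, hSt, hSf⟩ := exists_member e (fun S => Good N F' Sᶜ) hM hE hB r hr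
    obtain ⟨g, hg, h, hh, hne, hgh⟩ := exists_pair_of_good (by omega) hF'ne hMS
    apply hF g (hF'F hg) h (hF'F hh) hne
    rw [hgh, compl_compl]
    unfold cost
    rw [hSt, hSf]
    exact hcr
  rcases hρ with h | h
  · exact hfinal 0 (by omega) (by rw [h]; simp)
  · exact hfinal 1 le_rfl (by rw [h]; simp)

end Pool.Agent.PF84
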