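import Pool.Agent.PF84.Binom

/-!
The modular polynomial method on the symmetric group: if the prime power `P` divides `D`,
`D ≤ n < D + P`, and no two distinct members of `F` agree at exactly `n - D` points, then
`F.card ≤ (n.choose (D-1))^2 * (D-1)!`.
-/

namespace Pool.Agent.PF84

open Finset

variable {n : ℕ}

/-- The set of points at which two permutations agree. -/
def agr (σ τ : Equiv.Perm (Fin n)) : Finset (Fin n) := univ.filter fun i => σ i = τ i

lemma mem_agr (σ τ : Equiv.Perm (Fin n)) (i : Fin n) : i ∈ agr σ τ ↔ σ i = τ i := by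
  simp [agr]

lemma agr_self (σ : Equiv.Perm (Fin n)) : (agr σ σ).card = n := by
  simp [agr]

lemma agr_card_lt {σ τ : Equiv.Perm (Fin n)} (h : σ ≠ τ) : (agr σ τ).card < n := by
  by_contra hc
  apply h
  have h1 : (agr σ τ).card = n := le_antisymm (by simpa using card_le_univ (agr σ τ)) (not_lt.mp hc)
  have h2 : agr σ τ = univ := by
    rw [← Finset.card_eq_iff_eq_univ]; simpa using h1
  ext i
  have : i ∈ agr σ τ := by rw [h2]; simp
  rw [mem_agr] at this
  rw [this]

/-- Index set: a `d`-subset `J` of positions with an injection of `J` into the values. -/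
abbrev Idx (n d : ℕ) : Type := Σ J : {J : Finset (Fin n) // J.card = d}, (J.1 ↪ Fin n)

lemma card_Idx (n d : ℕ) : Fintype.card (Idx n d) = (n.choose d) ^ 2 * d.factorial := by
  rw [Fintype.card_sigma]
  have h : ∀ J : {J : Finset (Fin n) // J.card = d}, Fintype.card (J.1 ↪ Fin n) = n.descFactorial d := by
    intro J
    rw [Fintype.card_embedding_eq, Fintype.card_fin, Fintype.card_coe, J.2]
  simp_rw [h]
  rw [Finset.sum_const, Finset.card_univ, Fintype.card_finset_len, Fintype.card_fin,
    Nat.descFactorial_eq_factorial_mul_choose, smul_eq_mul]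
  ring

/-- restriction of a permutation to a set of positions -/
def restr (τ : Equiv.Perm (Fin n)) (J : Finset (Fin n)) : J ↪ Fin n :=
  (Function.Embedding.subtype _).trans τ.toEmbedding

lemma restr_apply (τ : Equiv.Perm (Fin n)) (J : Finset (Fin n)) (i : J) : restr τ J i = τ i := rfl

lemma exists_ext (n d : ℕ) (hd : d ≤ n) : ∃ f : Finset (Fin n) → Finset (Fin n),
    ∀ K : Finset (Fin n), K.card ≤ d → K ⊆ f K ∧ (f K).card = d := by
  have : ∀ K : Finset (Fin n), ∃ u : Finset (Fin n), K.card ≤ d → K ⊆ u ∧ u.card = d := by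
    intro K
    by_cases h : K.card ≤ d
    · obtain ⟨u, h1, _, h3⟩ := Finset.exists_subsuperset_card_eq (Finset.subset_univ K) h
        (by simpa using hd)
      exact ⟨u, fun _ => ⟨h1, h3⟩⟩
    · exact ⟨∅, fun h' => absurd h' h⟩
  choose f hf using this
  exact ⟨f, hf⟩

open Classical in
/-- The dual vectors. -/
noncomputable def uvec (p : ℕ) (c : ℕ → ZMod p) (ext : Finset (Fin n) → Finset (Fin n)) (d : ℕ)
    (σ : Equiv.Perm (Fin n)) (x : Idx n d) : ZMod p :=
  ∑ K ∈ x.1.1.powerset.filter (fun K => ext K = x.1.1),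
    c K.card * (if (∀ i : x.1.1, (i : Fin n) ∈ K → x.2 i = σ i) then 1 else 0)

open Classical in
/-- The vectors. -/
noncomputable def wvec (p : ℕ) (d : ℕ) (τ : Equiv.Perm (Fin n)) (x : Idx n d) : ZMod p :=
  if x.2 = restr τ x.1.1 then 1 else 0

lemma pairing (p d : ℕ) (c : ℕ → ZMod p) (hc : ∀ j, d < j → c j = 0)
    (ext : Finset (Fin n) → Finset (Fin n))
    (hext : ∀ K : Finset (Fin n), K.card ≤ d → K ⊆ ext K ∧ (ext K).card = d)
    (σ τ : Equiv.Perm (Fin n)) :
    ∑ x : Idx n d, uvec p c ext d σ x * wvec p d τ x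
      = ∑ j ∈ range ((agr σ τ).card + 1), ((agr σ τ).card.choose j : ZMod p) * c j := by
  classical
  rw [Fintype.sum_sigma]
  have h1 : ∀ J : {J : Finset (Fin n) // J.card = d},
      ∑ s : (J.1 ↪ Fin n), uvec p c ext d σ ⟨J, s⟩ * wvec p d τ ⟨J, s⟩
      = ∑ K ∈ J.1.powerset.filter (fun K => ext K = J.1),
        (if K ⊆ agr σ τ then c K.card else 0) := by
    intro J
    have h2 : ∀ s : (J.1 ↪ Fin n), uvec p c ext d σ ⟨J, s⟩ * wvec p d τ ⟨J, s⟩
        = if s = restr τ J.1 then uvec p c ext d σ ⟨J, s⟩ else 0 := by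
      intro s
      simp only [wvec]
      split_ifs <;> simp
    simp_rw [h2]
    rw [Finset.sum_ite_eq' Finset.univ (restr τ J.1)]
    rw [if_pos (Finset.mem_univ _)]
    unfold uvec
    apply Finset.sum_congr rfl
    intro K hK
    rw [Finset.mem_filter, Finset.mem_powerset] at hK
    have h3 : (∀ i : J.1, (i : Fin n) ∈ K → restr τ J.1 i = σ i) ↔ K ⊆ agr σ τ := by
      constructor
      · intro h i hi
        rw [mem_agr]
        have := h ⟨i, hK.1 hi⟩ hi
        rw [restr_apply] at this
        exact this.symm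
      · intro h i hi
        rw [restr_apply]
        have := h hi
        rw [mem_agr] at this
        exact this.symm
    simp only [h3]
    split_ifs <;> simp
  simp_rw [h1]
  -- regroup by K
  have h4 : ∑ J : {J : Finset (Fin n) // J.card = d},
      ∑ K ∈ J.1.powerset.filter (fun K => ext K = J.1),
        (if K ⊆ agr σ τ then c K.card else 0)
      = ∑ K ∈ (Finset.univ : Finset (Finset (Fin n))).filter (fun K => K.card ≤ d),
        (if K ⊆ agr σ τ then c K.card else 0) := by
    rw [← Finset.sum_subtype (Finset.powersetCard d (Finset.univ : Finset (Fin n)))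
      (p := fun J : Finset (Fin n) => J.card = d)
      (f := fun J => ∑ K ∈ J.powerset.filter (fun K => ext K = J),
        (if K ⊆ agr σ τ then c K.card else 0))]
    · rw [← Finset.sum_fiberwise_of_maps_to (s := (Finset.univ : Finset (Finset (Fin n))).filter
        (fun K => K.card ≤ d)) (t := Finset.powersetCard d Finset.univ) (g := ext)]
      · apply Finset.sum_congr rfl
        intro J hJ
        rw [Finset.mem_powersetCard] at hJ
        apply Finset.sum_congr _ (fun _ _ => rfl)
        ext K
        simp only [Finset.mem_filter, Finset.mem_powerset, Finset.mem_univ, true_and]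
        constructor
        · rintro ⟨h5, h6⟩
          exact ⟨le_trans (Finset.card_le_card h5) hJ.2.le, h6⟩
        · rintro ⟨h5, h6⟩
          refine ⟨?_, h6⟩
          rw [← h6]
          exact (hext K h5).1
      · intro K hK
        rw [Finset.mem_filter] at hK
        rw [Finset.mem_powersetCard]
        exact ⟨Finset.subset_univ _, (hext K hK.2).2⟩
    · intro J
      rw [Finset.mem_powersetCard]
      simp
  rw [h4]
  have h5 : ∑ K ∈ (Finset.univ : Finset (Finset (Fin n))).filter (fun K => K.card ≤ d),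
        (if K ⊆ agr σ τ then c K.card else 0)
      = ∑ K ∈ (agr σ τ).powerset, c K.card := by
    rw [← Finset.sum_filter]
    have h6 : ∑ K ∈ (agr σ τ).powerset, c K.card
        = ∑ K ∈ (agr σ τ).powerset.filter (fun K => K.card ≤ d), c K.card := by
      rw [Finset.sum_filter]
      apply Finset.sum_congr rfl
      intro K _
      split_ifs with h
      · rfl
      · exact hc _ (by omega)
    rw [h6]
    apply Finset.sum_congr _ (fun _ _ => rfl)
    ext K
    simp only [Finset.mem_filter, Finset.mem_powerset, Finset.mem_univ, true_and]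
    tauto
  rw [h5, Finset.sum_powerset_apply_card]
  apply Finset.sum_congr rfl
  intro j _
  rw [nsmul_eq_mul]

/-- The bound for `D ≤ n < D + p^e`, where `p^e` divides `D`. -/
theorem card_le_of_lt (p e D n : ℕ) (hp : p.Prime) (hD : 1 ≤ D) (hPD : p ^ e ∣ D) (hDn : D ≤ n)
    (hn : n < D + p ^ e) (F : Finset (Equiv.Perm (Fin n)))
    (hF : ∀ σ ∈ F, ∀ τ ∈ F, σ ≠ τ → (agr σ τ).card ≠ n - D) :
    F.card ≤ (n.choose (D - 1)) ^ 2 * (D - 1).factorial := by
  classical
  have : Fact p.Prime := ⟨hp⟩
  obtain ⟨ext, hext⟩ := exists_ext n (D - 1) (by omega)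
  have hc : ∀ j, D - 1 < j → coef p n D j = 0 := by
    intro j hj
    unfold coef
    rw [if_neg (by omega)]
  have hpair : ∀ σ ∈ F, ∀ τ ∈ F, ∑ x : Idx n (D - 1),
      uvec p (coef p n D) ext (D - 1) σ x * wvec p (D - 1) τ x
      = if σ = τ then (-1) ^ (D - 1) else 0 := by
    intro σ hσ τ hτ
    rw [pairing p (D - 1) (coef p n D) hc ext hext σ τ]
    change q p n D (agr σ τ).card = _
    by_cases h : σ = τ
    · subst h
      rw [agr_self, q_top p n D hD hDn]
      simp
    · rw [if_neg h]
      exact q_vanish p e n D _ hp hD hPD hDn hn (agr_card_lt h) (hF σ hσ τ hτ h)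
  have hli : LinearIndependent (ZMod p) (fun τ : F => wvec p (D - 1) (τ : Equiv.Perm (Fin n))) := by
    rw [Fintype.linearIndependent_iff]
    intro g hg σ
    have h1 : ∑ x : Idx n (D - 1), uvec p (coef p n D) ext (D - 1) σ x *
        (∑ τ : F, g τ • wvec p (D - 1) (τ : Equiv.Perm (Fin n))) x = 0 := by
      rw [hg]; simp
    have h2 : ∑ x : Idx n (D - 1), uvec p (coef p n D) ext (D - 1) σ x *
        (∑ τ : F, g τ • wvec p (D - 1) (τ : Equiv.Perm (Fin n))) x
        = ∑ τ : F, g τ * ∑ x : Idx n (D - 1), uvec p (coef p n D) ext (D - 1) σ x *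
          wvec p (D - 1) (τ : Equiv.Perm (Fin n)) x := by
      simp_rw [Finset.sum_apply, Pi.smul_apply, smul_eq_mul, Finset.mul_sum]
      rw [Finset.sum_comm]
      apply Finset.sum_congr rfl
      intro τ _
      apply Finset.sum_congr rfl
      intro x _
      ring
    rw [h2] at h1
    have h3 : ∀ τ : F, g τ * ∑ x : Idx n (D - 1),
        uvec p (coef p n D) ext (D - 1) σ x *
          wvec p (D - 1) (τ : Equiv.Perm (Fin n)) x
          = if σ = τ then g τ * (-1) ^ (D - 1) else 0 := by
      intro τ
      rw [hpair σ σ.2 τ τ.2]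
      by_cases h : σ = τ
      · subst h; simp
      · rw [if_neg h, if_neg (fun h' => h (Subtype.ext h'))]; simp
    simp_rw [h3] at h1
    rw [Finset.sum_ite_eq Finset.univ σ, if_pos (Finset.mem_univ _)] at h1
    rcases mul_eq_zero.mp h1 with h4 | h4
    · exact h4
    · exact absurd h4 (pow_ne_zero _ (neg_ne_zero.mpr one_ne_zero))
  have := hli.fintype_card_le_finrank
  rw [Module.finrank_fintype_fun_eq_card, card_Idx, Fintype.card_coe] at this
  exact this

end Pool.Agent.PF84
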