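import Pool.Agent.PF84.Cube
import Pool.Agent.PF84.Block
import Pool.Agent.PF84.Modular

/-!
Embedding the cube into the symmetric group, averaging over translates, and the upper bound
`|F| n^⌊D/3⌋ ≤ C n!` for families in which no two permutations differ at exactly `D` points.
-/

namespace Pool.Agent.PF84

open Finset

set_option linter.unusedSectionVars false

section embed

variable {B : Type} [Fintype B] [DecidableEq B] {m n : ℕ}

/-- The permutation of the points of all blocks. -/
def pp (two : Bool) (x : B × Bool → Fin m) : Equiv.Perm (B × Blk m) :=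
  Equiv.prodCongrRight (fun b => bp two (fun ε => x (b, ε)))

lemma pp_apply (two : Bool) (x : B × Bool → Fin m) (b : B) (p : Blk m) :
    pp two x (b, p) = (b, bp two (fun ε => x (b, ε)) p) := rfl

lemma card_pp_diff (two : Bool) (x y : B × Bool → Fin m) :
    (Finset.univ.filter fun p => pp two x p ≠ pp two y p).card = cost (extra two) (agrF x y)ᶜ := by
  classical
  rw [Finset.card_filter, Fintype.sum_prod_type]
  have h1 : ∀ b : B, ∑ p : Blk m, (if pp two x (b, p) ≠ pp two y (b, p) then 1 else 0)
      = 3 * (if x (b, false) ≠ y (b, false) ∨ x (b, true) ≠ y (b, true) then 1 else 0)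
        + extra two * (if x (b, false) ≠ y (b, false) ∧ x (b, true) ≠ y (b, true) then 1 else 0) := by
    intro b
    rw [← bp_diff two (fun ε => x (b, ε)) (fun ε => y (b, ε)), Finset.card_filter]
    apply Finset.sum_congr rfl
    intro p _
    rw [pp_apply, pp_apply]
    congr 1
    simp
  simp_rw [h1]
  rw [Finset.sum_add_distrib, ← Finset.mul_sum, ← Finset.mul_sum, ← Finset.card_filter,
    ← Finset.card_filter]
  unfold cost
  congr 3
  · ext b
    rw [Finset.mem_filter, mem_touched, Finset.mem_compl, Finset.mem_compl, mem_agrF, mem_agrF]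
    simp
  · ext b
    rw [Finset.mem_filter, mem_full, Finset.mem_compl, Finset.mem_compl, mem_agrF, mem_agrF]
    simp

/-- The permutation of `Fin n`. -/
noncomputable def ph (two : Bool) (ι : B × Blk m ↪ Fin n) (x : B × Bool → Fin m) :
    Equiv.Perm (Fin n) := (pp two x).viaFintypeEmbedding ι

lemma card_ph_diff (two : Bool) (ι : B × Blk m ↪ Fin n) (x y : B × Bool → Fin m) :
    (Finset.univ.filter fun i => ph two ι x i ≠ ph two ι y i).card
      = cost (extra two) (agrF x y)ᶜ := by
  classical
  rw [← card_pp_diff two x y, ← Finset.card_map ι]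
  congr 1
  ext i
  rw [Finset.mem_filter, Finset.mem_map]
  constructor
  · rintro ⟨_, h⟩
    by_cases hi : i ∈ Set.range ι
    · obtain ⟨p, rfl⟩ := hi
      refine ⟨p, ?_, rfl⟩
      rw [Finset.mem_filter]
      refine ⟨Finset.mem_univ _, ?_⟩
      intro h'
      apply h
      unfold ph
      rw [Equiv.Perm.viaFintypeEmbedding_apply_image, Equiv.Perm.viaFintypeEmbedding_apply_image, h']
    · exfalso
      apply h
      unfold ph
      rw [Equiv.Perm.viaFintypeEmbedding_apply_notMem_range _ _ hi,
        Equiv.Perm.viaFintypeEmbedding_apply_notMem_range _ _ hi]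
  · rintro ⟨p, hp, rfl⟩
    refine ⟨Finset.mem_univ _, ?_⟩
    intro h'
    apply (Finset.mem_filter.mp hp).2
    unfold ph at h'
    rw [Equiv.Perm.viaFintypeEmbedding_apply_image, Equiv.Perm.viaFintypeEmbedding_apply_image] at h'
    exact ι.injective h'

/-- Averaging over left translates. -/
lemma exists_translate {X : Type*} [Fintype X] (π : X → Equiv.Perm (Fin n))
    (F : Finset (Equiv.Perm (Fin n))) :
    ∃ g : Equiv.Perm (Fin n), Fintype.card X * F.card ≤
      n.factorial * (Finset.univ.filter fun x => g * π x ∈ F).card := by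
  classical
  by_contra hcon
  push Not at hcon
  have hsum : ∑ g : Equiv.Perm (Fin n), (Finset.univ.filter fun x => g * π x ∈ F).card
      = Fintype.card X * F.card := by
    simp_rw [Finset.card_filter]
    rw [Finset.sum_comm]
    have : ∀ x : X, ∑ g : Equiv.Perm (Fin n), (if g * π x ∈ F then 1 else 0) = F.card := by
      intro x
      rw [← Finset.card_filter]
      apply Finset.card_bij (fun g _ => g * π x)
      · intro g hg; exact (Finset.mem_filter.mp hg).2
      · intro a _ b _ hab; exact mul_right_cancel hab
      · intro b hb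
        exact ⟨b * (π x)⁻¹, by simp [hb], by simp⟩
    simp_rw [this]
    simp
  have h1 : ∑ g : Equiv.Perm (Fin n), n.factorial * (Finset.univ.filter fun x => g * π x ∈ F).card
      < ∑ _g : Equiv.Perm (Fin n), Fintype.card X * F.card :=
    Finset.sum_lt_sum_of_nonempty ⟨1, Finset.mem_univ _⟩ (fun g _ => hcon g)
  rw [← Finset.mul_sum, hsum, Finset.sum_const, Finset.card_univ, Fintype.card_perm,
    Fintype.card_fin, smul_eq_mul] at h1
  exact lt_irrefl _ h1

end embed

/-- The upper bound. -/
theorem upper (D : ℕ) (hD : 3 ≤ D) : ∃ C : ℕ, ∀ (n : ℕ) (F : Finset (Equiv.Perm (Fin n))),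
    D ≤ n → (∀ σ ∈ F, ∀ τ ∈ F, σ ≠ τ → (agr σ τ).card ≠ n - D) →
    F.card * n ^ (D / 3) ≤ C * n.factorial := by
  classical
  set e := D / 3 with he
  have he1 : 1 ≤ e := by omega
  -- the number of blocks
  set k := e + 2 ^ e * 2 ^ e * e with hk
  have hk1 : 1 ≤ k := by omega
  -- the block type and the remainder
  obtain ⟨two, ρ, hρ, hDρ⟩ : ∃ (two : Bool) (ρ : ℕ), (ρ = 0 ∨ ρ = extra two) ∧ D = 3 * e + ρ := by
    have h3 : D % 3 = 0 ∨ D % 3 = 1 ∨ D % 3 = 2 := by omega
    rcases h3 with h | h | h
    · exact ⟨false, 0, Or.inl rfl, by omega⟩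
    · exact ⟨false, 1, Or.inr rfl, by omega⟩
    · exact ⟨true, 2, Or.inr rfl, by omega⟩
  obtain ⟨C, hC⟩ := cube_bound (B := Fin k) e (extra two) ρ hρ (by rw [Fintype.card_fin])
  refine ⟨(C + 1) * (6 * k) ^ e, ?_⟩
  intro n F hDn hF
  by_cases hn : n < 3 * k
  · -- trivial
    have h1 : F.card ≤ n.factorial := by
      calc F.card ≤ Fintype.card (Equiv.Perm (Fin n)) := Finset.card_le_univ F
        _ = n.factorial := by rw [Fintype.card_perm, Fintype.card_fin]
    calc F.card * n ^ e ≤ n.factorial * (6 * k) ^ e := by gcongr; omega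
      _ ≤ (C + 1) * (6 * k) ^ e * n.factorial := by
          rw [mul_comm n.factorial]
          calc (6 * k) ^ e * n.factorial = 1 * (6 * k) ^ e * n.factorial := by ring
            _ ≤ (C + 1) * (6 * k) ^ e * n.factorial := by gcongr; omega
  · push Not at hn
    set m := n / (3 * k) with hm
    have hm1 : 1 ≤ m := (Nat.one_le_div_iff (by omega)).mpr hn
    have hmn : 3 * k * m ≤ n := Nat.mul_div_le n (3 * k)
    have hnm : n ≤ 6 * k * m := by
      have := Nat.lt_mul_div_succ n (show 0 < 3 * k by omega)
      rw [← hm] at this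
      have h2 : 3 * k * (m + 1) ≤ 6 * k * m := by nlinarith
      omega
    have hcard : Fintype.card (Fin k × Blk m) ≤ Fintype.card (Fin n) := by
      rw [Fintype.card_prod, Fintype.card_sum, Fintype.card_prod, Fintype.card_bool,
        Fintype.card_fin, Fintype.card_fin, Fintype.card_fin, Fintype.card_unit]
      nlinarith
    obtain ⟨ι⟩ := Function.Embedding.nonempty_of_card_le hcard
    obtain ⟨g, hg⟩ := exists_translate (fun x : Fin k × Bool → Fin m => ph two ι x) F
    have hX := hC m (Finset.univ.filter fun x => g * ph two ι x ∈ F) (by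
      intro x hx y hy hxy hc
      rw [Finset.mem_filter] at hx hy
      have hne : g * ph two ι x ≠ g * ph two ι y := by
        intro h
        have h' := mul_left_cancel h
        have h2 := card_ph_diff two ι x y
        rw [h', hc] at h2
        simp at h2
        omega
      apply hF _ hx.2 _ hy.2 hne
      have h3 : (agr (g * ph two ι x) (g * ph two ι y)).card
          + (Finset.univ.filter fun i => ph two ι x i ≠ ph two ι y i).card = n := by
        have h4 : agr (g * ph two ι x) (g * ph two ι y)
            = Finset.univ.filter fun i => ph two ι x i = ph two ι y i := by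
          ext i
          rw [mem_agr, Finset.mem_filter]
          simp
        rw [h4, Finset.card_filter_add_card_filter_not]
        simp
      rw [card_ph_diff, hc] at h3
      omega)
    rw [Fintype.card_fun, Fintype.card_prod, Fintype.card_bool, Fintype.card_fin,
      Fintype.card_fin] at hg
    rw [Fintype.card_fin] at hX
    -- m^(2k) |F| ≤ n! C m^(2k-e)
    have hke : e ≤ 2 * k := by omega
    have h5 : m ^ (2 * k - e) * (m ^ e * F.card) ≤ m ^ (2 * k - e) * (C * n.factorial) := by
      calc m ^ (2 * k - e) * (m ^ e * F.card) = m ^ (k * 2) * F.card := by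
            rw [← mul_assoc, ← pow_add]
            congr 2
            omega
        _ ≤ n.factorial * (Finset.univ.filter fun x => g * ph two ι x ∈ F).card := hg
        _ ≤ n.factorial * (C * m ^ (2 * k - e)) := by gcongr
        _ = m ^ (2 * k - e) * (C * n.factorial) := by ring
    have h6 : m ^ e * F.card ≤ C * n.factorial :=
      Nat.le_of_mul_le_mul_left h5 (pow_pos (by omega) _)
    calc F.card * n ^ e ≤ F.card * (6 * k * m) ^ e := by gcongr
      _ = (m ^ e * F.card) * (6 * k) ^ e := by rw [mul_pow]; ring
      _ ≤ (C * n.factorial) * (6 * k) ^ e := by gcongr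
      _ ≤ ((C + 1) * n.factorial) * (6 * k) ^ e := by gcongr; omega
      _ = (C + 1) * (6 * k) ^ e * n.factorial := by ring

end Pool.Agent.PF84
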