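import Mathlib

/-!
Homogeneous subfamilies (after Füredi): every finite family `F` of functions `I → α` contains a
subfamily `F'`, `|F| ≤ C |F'|` with `C` depending on `|I|` and `N` only, such that for every proper
subset `A` of `I` either no two members of `F'` agree exactly on `A`, or every member of `F'`
belongs to (agrees on `A` with) a star of `N` members with kernel exactly `A`.
-/

namespace Pool.Agent.PF84

open Finset

set_option linter.unusedSectionVars false

variable {I α : Type*} [Fintype I] [DecidableEq I] [DecidableEq α]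

/-- The agreement set of two functions. -/
def agrF (f g : I → α) : Finset I := univ.filter fun i => f i = g i

lemma mem_agrF {f g : I → α} {i : I} : i ∈ agrF f g ↔ f i = g i := by simp [agrF]

lemma agrF_comm (f g : I → α) : agrF f g = agrF g f := by
  ext i; rw [mem_agrF, mem_agrF]; exact eq_comm

/-- No two members agree exactly on `A`. -/
def Bad (F : Finset (I → α)) (A : Finset I) : Prop := ∀ f ∈ F, ∀ g ∈ F, agrF f g ≠ A

/-- A star with kernel `A` at `f`. -/
def Star (N : ℕ) (F : Finset (I → α)) (A : Finset I) (f : I → α) : Prop :=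
  ∃ G ⊆ F, N ≤ G.card ∧ (∀ g ∈ G, A ⊆ agrF f g) ∧ (∀ g ∈ G, ∀ h ∈ G, g ≠ h → agrF g h = A)

/-- Every member has a star with kernel `A`. -/
def Good (N : ℕ) (F : Finset (I → α)) (A : Finset I) : Prop := ∀ f ∈ F, Star N F A f

lemma Bad.mono {F F' : Finset (I → α)} {A : Finset I} (h : Bad F A) (hs : F' ⊆ F) : Bad F' A :=
  fun f hf g hg => h f (hs hf) g (hs hg)

lemma sub_agrF_trans {f g h : I → α} {A : Finset I} (h1 : A ⊆ agrF f g) (h2 : A ⊆ agrF f h) :
    A ⊆ agrF g h := by
  intro i hi
  have e1 := mem_agrF.mp (h1 hi)
  have e2 := mem_agrF.mp (h2 hi)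
  exact mem_agrF.mpr (e1.symm.trans e2)

/-- The removal procedure, as a colouring. -/
lemma exists_coloring (N : ℕ) (C : Finset (Finset I)) : ∀ (k : ℕ) (F : Finset (I → α)), F.card ≤ k →
    ∃ col : (I → α) → Option (Finset I),
      (∀ f ∈ F, ∀ A, col f = some A → A ∈ C) ∧
      (∀ A ∈ C, Good N (F.filter (fun f => col f = none)) A) ∧
      (∀ A ∈ C, ∀ f ∈ F, col f = some A →
        ¬ ∃ G ⊆ F.filter (fun g => col g = some A ∧ A ⊆ agrF f g), N ≤ G.card ∧
          (∀ g ∈ G, ∀ h ∈ G, g ≠ h → agrF g h = A)) := by
  classical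
  intro k
  induction k with
  | zero =>
    intro F hF
    have : F = ∅ := Finset.card_eq_zero.mp (Nat.le_zero.mp hF)
    subst this
    exact ⟨fun _ => none, by simp, by simp [Good], by simp⟩
  | succ k ih =>
    intro F hF
    by_cases hgood : ∀ A ∈ C, Good N F A
    · refine ⟨fun _ => none, by simp, ?_, by simp⟩
      intro A hA
      simpa using hgood A hA
    · push Not at hgood
      obtain ⟨A₀, hA₀, hng⟩ := hgood
      unfold Good at hng
      push Not at hng
      obtain ⟨f₀, hf₀, hns⟩ := hng
      obtain ⟨col, h1, h2, h3⟩ := ih (F.erase f₀) (by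
        rw [Finset.card_erase_of_mem hf₀]; omega)
      refine ⟨Function.update col f₀ (some A₀), ?_, ?_, ?_⟩
      · intro f hf A hcol
        by_cases hff : f = f₀
        · subst hff
          rw [Function.update_self] at hcol
          cases hcol
          exact hA₀
        · rw [Function.update_of_ne hff] at hcol
          exact h1 f (Finset.mem_erase.mpr ⟨hff, hf⟩) A hcol
      · intro A hA
        have e : F.filter (fun f => Function.update col f₀ (some A₀) f = none)
            = (F.erase f₀).filter (fun f => col f = none) := by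
          ext f
          rw [Finset.mem_filter, Finset.mem_filter, Finset.mem_erase]
          by_cases hff : f = f₀
          · subst hff
            rw [Function.update_self]
            simp
          · rw [Function.update_of_ne hff]
            simp [hff]
        rw [e]
        exact h2 A hA
      · rintro A hA f hf hcol ⟨G, hGF, hGN, hGs⟩
        by_cases hfG : f₀ ∈ G
        · have h4 := Finset.mem_filter.mp (hGF hfG)
          rw [Function.update_self] at h4
          have hAA : A₀ = A := by
            have := h4.2.1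
            exact Option.some.inj this
          subst hAA
          apply hns
          refine ⟨G, fun g hg => (Finset.mem_filter.mp (hGF hg)).1, hGN, ?_, hGs⟩
          intro g hg
          exact sub_agrF_trans h4.2.2 (Finset.mem_filter.mp (hGF hg)).2.2
        · by_cases hff : f = f₀
          · subst hff
            rw [Function.update_self] at hcol
            cases hcol
            apply hns
            exact ⟨G, fun g hg => (Finset.mem_filter.mp (hGF hg)).1, hGN,
              fun g hg => (Finset.mem_filter.mp (hGF hg)).2.2, hGs⟩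
          · rw [Function.update_of_ne hff] at hcol
            refine h3 A hA f (Finset.mem_erase.mpr ⟨hff, hf⟩) hcol ⟨G, ?_, hGN, hGs⟩
            intro g hg
            have h5 := Finset.mem_filter.mp (hGF hg)
            have hgf : g ≠ f₀ := fun h => hfG (h ▸ hg)
            rw [Function.update_of_ne hgf] at h5
            exact Finset.mem_filter.mpr ⟨Finset.mem_erase.mpr ⟨hgf, h5.1⟩, h5.2⟩

/-- rank of an element in a finset -/
noncomputable def rk (G : Finset (I → α)) (g : I → α) : ℕ :=
  if h : g ∈ G then (G.equivFin ⟨g, h⟩).val else 0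

lemma rk_inj {G : Finset (I → α)} {g h : I → α} (hg : g ∈ G) (hh : h ∈ G) (e : rk G g = rk G h) :
    g = h := by
  unfold rk at e
  rw [dif_pos hg, dif_pos hh] at e
  have := G.equivFin.injective (Fin.ext e)
  exact congrArg Subtype.val this

lemma rk_lt {G : Finset (I → α)} {g : I → α} (hg : g ∈ G) : rk G g < G.card := by
  unfold rk
  rw [dif_pos hg]
  exact (G.equivFin ⟨g, hg⟩).isLt

/-- If the stars with kernel `A` are small in every class, a positive proportion of the family has
no two members agreeing exactly on `A`. -/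
lemma exists_bad (N : ℕ) (R : Finset (I → α)) (A : Finset I) (hA : A ≠ univ)
    (hR : ∀ f ∈ R, ¬ ∃ G ⊆ R.filter (fun g => A ⊆ agrF f g), N ≤ G.card ∧
          (∀ g ∈ G, ∀ h ∈ G, g ≠ h → agrF g h = A)) :
    ∃ R' ⊆ R, Bad R' A ∧ R.card ≤ (Fintype.card I * N) * R'.card := by
  classical
  -- maximal stars, one for every restriction
  have hmax : ∀ r : (A → α), ∃ G ⊆ R.filter (fun g => ∀ i : A, g i = r i),
      (∀ g ∈ G, ∀ h ∈ G, g ≠ h → agrF g h = A) ∧
      (∀ G' ⊆ R.filter (fun g => ∀ i : A, g i = r i),
        (∀ g ∈ G', ∀ h ∈ G', g ≠ h → agrF g h = A) → G'.card ≤ G.card) := by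
    intro r
    let P := (R.filter (fun g => ∀ i : A, g i = r i)).powerset.filter
      (fun G => ∀ g ∈ G, ∀ h ∈ G, g ≠ h → agrF g h = A)
    have hne : P.Nonempty := ⟨∅, by simp [P]⟩
    obtain ⟨G, hG, hGm⟩ := Finset.exists_max_image P Finset.card hne
    rw [Finset.mem_filter, Finset.mem_powerset] at hG
    refine ⟨G, hG.1, hG.2, ?_⟩
    intro G' h1 h2
    exact hGm G' (Finset.mem_filter.mpr ⟨Finset.mem_powerset.mpr h1, h2⟩)
  choose G hG1 hG2 hG3 using hmax
  let res : (I → α) → (A → α) := fun f i => f i
  have hres : ∀ f g : I → α, (∀ i : A, g i = res f i) ↔ A ⊆ agrF f g := by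
    intro f g
    constructor
    · intro h i hi
      exact mem_agrF.mpr (h ⟨i, hi⟩).symm
    · intro h i
      exact (mem_agrF.mp (h i.2)).symm
  have hsmall : ∀ f ∈ R, (G (res f)).card < N := by
    intro f hf
    by_contra hcon
    push Not at hcon
    apply hR f hf
    refine ⟨G (res f), ?_, hcon, hG2 _⟩
    intro g hg
    have := Finset.mem_filter.mp (hG1 _ hg)
    exact Finset.mem_filter.mpr ⟨this.1, (hres f g).mp this.2⟩
  have hkey : ∀ f : I → α, ∃ g : I → α, ∃ c : I, f ∈ R → (g ∈ G (res f) ∧ c ∉ A ∧ f c = g c) := by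
    intro f
    by_cases hf : f ∈ R
    · obtain ⟨c₀, hc₀⟩ : ∃ c, c ∉ A := by
        by_contra h
        push Not at h
        exact hA (Finset.eq_univ_iff_forall.mpr h)
      by_cases hfG : f ∈ G (res f)
      · exact ⟨f, c₀, fun _ => ⟨hfG, hc₀, rfl⟩⟩
      · -- insert f is not a star
        have h1 : ¬ (∀ g ∈ insert f (G (res f)), ∀ h ∈ insert f (G (res f)), g ≠ h → agrF g h = A) := by
          intro h2
          have h3 := hG3 (res f) (insert f (G (res f))) (by
            intro g hg
            rcases Finset.mem_insert.mp hg with rfl | hg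
            · exact Finset.mem_filter.mpr ⟨hf, fun i => rfl⟩
            · exact hG1 _ hg) h2
          rw [Finset.card_insert_of_notMem hfG] at h3
          omega
        have h4 : ∃ g ∈ G (res f), agrF f g ≠ A := by
          by_contra hcon
          push Not at hcon
          apply h1
          intro g hg h hh hne
          rcases Finset.mem_insert.mp hg with rfl | hg <;> rcases Finset.mem_insert.mp hh with rfl | hh
          · exact absurd rfl hne
          · exact hcon h hh
          · rw [agrF_comm]; exact hcon g hg
          · exact hG2 _ g hg h hh hne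
        obtain ⟨g, hg, hne⟩ := h4
        have h5 : A ⊆ agrF f g := (hres f g).mp (Finset.mem_filter.mp (hG1 _ hg)).2
        obtain ⟨c, hc1, hc2⟩ : ∃ c ∈ agrF f g, c ∉ A := by
          by_contra hcon
          push Not at hcon
          exact hne (Finset.Subset.antisymm hcon h5)
        exact ⟨g, c, fun _ => ⟨hg, hc2, mem_agrF.mp hc1⟩⟩
    · by_cases hI : Nonempty I
      · obtain ⟨i⟩ := hI
        exact ⟨f, i, fun h => absurd h hf⟩
      · exfalso
        apply hA
        rw [Finset.eq_univ_iff_forall]
        intro i
        exact absurd ⟨i⟩ hI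
  choose gg cc hgc using hkey
  -- pigeonhole
  have hmaps : ∀ f ∈ R, (fun f => (cc f, rk (G (res f)) (gg f))) f ∈
      (Finset.univ : Finset I) ×ˢ Finset.range N := by
    intro f hf
    rw [Finset.mem_product]
    exact ⟨Finset.mem_univ _, Finset.mem_range.mpr ((rk_lt (hgc f hf).1).trans (hsmall f hf))⟩
  by_cases hRe : R.Nonempty
  · have hcard : R.card = ∑ b ∈ (Finset.univ : Finset I) ×ˢ Finset.range N,
        (R.filter (fun f => (cc f, rk (G (res f)) (gg f)) = b)).card :=
      Finset.card_eq_sum_card_fiberwise hmaps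
    have hTne : ((Finset.univ : Finset I) ×ˢ Finset.range N).Nonempty := by
      obtain ⟨f, hf⟩ := hRe
      exact ⟨_, hmaps f hf⟩
    obtain ⟨b, _, hb⟩ := Finset.exists_max_image ((Finset.univ : Finset I) ×ˢ Finset.range N)
      (fun b => (R.filter (fun f => (cc f, rk (G (res f)) (gg f)) = b)).card) hTne
    refine ⟨R.filter (fun f => (cc f, rk (G (res f)) (gg f)) = b), Finset.filter_subset _ _, ?_, ?_⟩
    · intro f hf g hg hfg
      rw [Finset.mem_filter] at hf hg
      have e1 : res f = res g := by
        funext i
        have h' : (i : I) ∈ agrF f g := by rw [hfg]; exact i.2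
        have h'' := mem_agrF.mp h'
        exact h''
      have e2 : (cc f, rk (G (res f)) (gg f)) = (cc g, rk (G (res g)) (gg g)) := hf.2.trans hg.2.symm
      have e3 : cc f = cc g := congrArg Prod.fst e2
      have e4 : rk (G (res f)) (gg f) = rk (G (res g)) (gg g) := congrArg Prod.snd e2
      have h1 := hgc f hf.1
      have h2 := hgc g hg.1
      rw [← e1] at h2 e4
      have e5 : gg f = gg g := rk_inj h1.1 h2.1 e4
      have : cc f ∈ agrF f g := by
        rw [mem_agrF, h1.2.2, e5, e3]
        exact h2.2.2.symm
      rw [hfg] at this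
      exact h1.2.1 this
    · calc R.card = ∑ b ∈ (Finset.univ : Finset I) ×ˢ Finset.range N,
          (R.filter (fun f => (cc f, rk (G (res f)) (gg f)) = b)).card := hcard
        _ ≤ ∑ _b' ∈ (Finset.univ : Finset I) ×ˢ Finset.range N,
          (R.filter (fun f => (cc f, rk (G (res f)) (gg f)) = b)).card := Finset.sum_le_sum hb
        _ = _ := by rw [Finset.sum_const, Finset.card_product]; simp
  · rw [Finset.not_nonempty_iff_eq_empty] at hRe
    subst hRe
    exact ⟨∅, by simp, by simp [Bad], by simp⟩

/-- Homogeneous subfamilies, inductive form. -/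
lemma homog_aux (N : ℕ) : ∀ (j : ℕ) (ℬ : Finset (Finset I)) (F : Finset (I → α)),
    (∀ A ∈ ℬ, Bad F A) →
    (((Finset.univ : Finset (Finset I)).erase Finset.univ) \ ℬ).card ≤ j →
    ∃ F' ⊆ F, F.card ≤ 2 * (2 * 2 ^ Fintype.card I * (Fintype.card I * N) + 1) ^ j * F'.card ∧
      ∀ A : Finset I, A ≠ univ → (Good N F' A ∨ Bad F' A) := by
  classical
  intro j
  induction j with
  | zero =>
    intro ℬ F hB hc
    refine ⟨F, subset_rfl, by simp; omega, ?_⟩
    intro A hA
    right
    apply hB
    by_contra hAB
    have : A ∈ ((Finset.univ : Finset (Finset I)).erase Finset.univ) \ ℬ :=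
      Finset.mem_sdiff.mpr ⟨Finset.mem_erase.mpr ⟨hA, Finset.mem_univ _⟩, hAB⟩
    have := Finset.card_pos.mpr ⟨A, this⟩
    omega
  | succ j ih =>
    intro ℬ F hB hc
    set K := 2 * 2 ^ Fintype.card I * (Fintype.card I * N) + 1 with hK
    set C := ((Finset.univ : Finset (Finset I)).erase Finset.univ) \ ℬ with hC
    obtain ⟨col, h1, h2, h3⟩ := exists_coloring N C F.card F le_rfl
    have hsum : F.card = (F.filter (fun f => col f = none)).card +
        ∑ A ∈ C, (F.filter (fun f => col f = some A)).card := by
      have e1 : F.card = (F.filter (fun f => col f = none)).card +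
          (F.filter (fun f => ¬ col f = none)).card :=
        (Finset.card_filter_add_card_filter_not _).symm
      rw [e1]
      congr 1
      have e2 : (F.filter (fun f => ¬ col f = none)).card
          = ∑ A ∈ C, ((F.filter (fun f => ¬ col f = none)).filter (fun f => (col f).getD ∅ = A)).card := by
        apply Finset.card_eq_sum_card_fiberwise
        intro f hf
        have hf' := Finset.mem_filter.mp hf
        obtain ⟨A, hA⟩ := Option.ne_none_iff_exists'.mp hf'.2
        have := h1 f hf'.1 A hA
        simpa [hA] using this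
      rw [e2]
      apply Finset.sum_congr rfl
      intro A _
      congr 1
      ext f
      simp only [Finset.mem_filter]
      constructor
      · rintro ⟨⟨hf, hn⟩, hd⟩
        obtain ⟨A', hA'⟩ := Option.ne_none_iff_exists'.mp hn
        rw [hA'] at hd
        simp at hd
        rw [hA', hd]
        exact ⟨hf, rfl⟩
      · rintro ⟨hf, hs⟩
        rw [hs]
        simp [hf]
    by_cases hcase : F.card ≤ 2 * (F.filter (fun f => col f = none)).card
    · refine ⟨F.filter (fun f => col f = none), Finset.filter_subset _ _, ?_, ?_⟩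
      · have hK1 : 1 ≤ K ^ (j + 1) := Nat.one_le_pow _ _ (by omega)
        calc F.card ≤ 2 * (F.filter (fun f => col f = none)).card := hcase
          _ = 2 * 1 * (F.filter (fun f => col f = none)).card := by ring
          _ ≤ 2 * K ^ (j + 1) * (F.filter (fun f => col f = none)).card := by gcongr
      · intro A hA
        by_cases hAB : A ∈ ℬ
        · right; exact (hB A hAB).mono (Finset.filter_subset _ _)
        · left
          exact h2 A (Finset.mem_sdiff.mpr ⟨Finset.mem_erase.mpr ⟨hA, Finset.mem_univ _⟩, hAB⟩)
    · push Not at hcase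
      have hS : F.card ≤ 2 * ∑ A ∈ C, (F.filter (fun f => col f = some A)).card := by omega
      have hCne : C.Nonempty := by
        by_contra hcon
        rw [Finset.not_nonempty_iff_eq_empty] at hcon
        rw [hcon] at hS
        simp at hS
        rw [hS] at hcase
        simp at hcase
      obtain ⟨A, hAC, hAmax⟩ := Finset.exists_max_image C
        (fun A => (F.filter (fun f => col f = some A)).card) hCne
      have hle : ∑ A ∈ C, (F.filter (fun f => col f = some A)).card
          ≤ C.card * (F.filter (fun f => col f = some A)).card := by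
        calc ∑ A ∈ C, (F.filter (fun f => col f = some A)).card
            ≤ ∑ _B ∈ C, (F.filter (fun f => col f = some A)).card := Finset.sum_le_sum hAmax
          _ = _ := by rw [Finset.sum_const, smul_eq_mul]
      have hA : A ≠ univ := (Finset.mem_erase.mp (Finset.mem_sdiff.mp hAC).1).1
      obtain ⟨R', hR'1, hR'2, hR'3⟩ := exists_bad N (F.filter (fun f => col f = some A)) A hA (by
        intro f hf
        rw [Finset.mem_filter] at hf
        have := h3 A hAC f hf.1 hf.2
        rintro ⟨G, hG, hGN, hGs⟩
        apply this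
        refine ⟨G, ?_, hGN, hGs⟩
        intro g hg
        have h5 := Finset.mem_filter.mp (hG hg)
        have h6 := Finset.mem_filter.mp h5.1
        exact Finset.mem_filter.mpr ⟨h6.1, h6.2, h5.2⟩)
      obtain ⟨F', hF'1, hF'2, hF'3⟩ := ih (insert A ℬ) R' (by
        intro B hBm
        rcases Finset.mem_insert.mp hBm with rfl | hBm
        · exact hR'2
        · exact (hB B hBm).mono (hR'1.trans (Finset.filter_subset _ _))) (by
        have e3 : ((Finset.univ : Finset (Finset I)).erase Finset.univ) \ (insert A ℬ) = C.erase A := by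
          rw [hC]
          ext B
          simp only [Finset.mem_sdiff, Finset.mem_erase, Finset.mem_insert, Finset.mem_univ]
          tauto
        rw [e3, Finset.card_erase_of_mem hAC]
        omega)
      refine ⟨F', hF'1.trans (hR'1.trans (Finset.filter_subset _ _)), ?_, hF'3⟩
      have hCcard : C.card ≤ 2 ^ Fintype.card I := by
        calc C.card ≤ (Finset.univ : Finset (Finset I)).card := Finset.card_le_card (Finset.subset_univ _)
          _ = 2 ^ Fintype.card I := by rw [Finset.card_univ, Fintype.card_finset]
      calc F.card ≤ 2 * ∑ A ∈ C, (F.filter (fun f => col f = some A)).card := hS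
        _ ≤ 2 * (C.card * (F.filter (fun f => col f = some A)).card) := by gcongr
        _ ≤ 2 * (2 ^ Fintype.card I * ((Fintype.card I * N) * R'.card)) := by gcongr
        _ ≤ 2 * (2 ^ Fintype.card I * ((Fintype.card I * N) * (2 * K ^ j * F'.card))) := by gcongr
        _ = (2 * 2 ^ Fintype.card I * (Fintype.card I * N)) * (2 * K ^ j * F'.card) := by ring
        _ ≤ K * (2 * K ^ j * F'.card) := by gcongr; omega
        _ = 2 * K ^ (j + 1) * F'.card := by ring

/-- Homogeneous subfamilies. -/
theorem homog (I : Type*) [Fintype I] [DecidableEq I] (N : ℕ) :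
    ∃ C : ℕ, ∀ {α : Type} [DecidableEq α] (F : Finset (I → α)),
      ∃ F' ⊆ F, F.card ≤ C * F'.card ∧ ∀ A : Finset I, A ≠ univ → (Good N F' A ∨ Bad F' A) := by
  refine ⟨2 * (2 * 2 ^ Fintype.card I * (Fintype.card I * N) + 1) ^
    ((((Finset.univ : Finset (Finset I)).erase Finset.univ) \ ∅).card), ?_⟩
  intro α _ F
  exact homog_aux N _ ∅ F (by simp) le_rfl

/-- Closure under intersection. -/
lemma not_bad_inter {N : ℕ} (hN : Fintype.card I < N) {F : Finset (I → α)} (hF : F.Nonempty)
    {A A' : Finset I} (hA : Good N F A) (hA' : Good N F A') : ¬ Bad F (A ∩ A') := by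
  classical
  obtain ⟨f, hf⟩ := hF
  obtain ⟨G, hGF, hGN, hGf, hGs⟩ := hA f hf
  obtain ⟨G', hGF', hGN', hGf', hGs'⟩ := hA' f hf
  -- choose g ∈ G disagreeing with f outside A
  have step : ∀ (A : Finset I) (G : Finset (I → α)), N ≤ G.card →
      (∀ g ∈ G, ∀ h ∈ G, g ≠ h → agrF g h = A) → ∀ u : I → α,
      ∃ g ∈ G, ∀ c, c ∉ A → g c ≠ u c := by
    intro A G hGN hGs u
    by_contra hcon
    push Not at hcon
    have hGne : G.Nonempty := Finset.card_pos.mp (by omega)
    obtain ⟨g0, hg0⟩ := hGne
    obtain ⟨c0, _, _⟩ := hcon g0 hg0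
    have : Nonempty I := ⟨c0⟩
    choose! c hc1 hc2 using hcon
    have hinj : Set.InjOn c (G : Set (I → α)) := by
      intro g hg h hh hgh
      by_contra hne
      have h1 := hGs g hg h hh hne
      have h2 : c g ∈ agrF g h := by
        rw [mem_agrF, hc2 g hg]
        rw [hgh]
        exact (hc2 h hh).symm
      rw [h1] at h2
      exact hc1 g hg h2
    have := Finset.card_le_card_of_injOn (t := (Finset.univ : Finset I)) c
      (fun _ _ => Finset.mem_univ _) hinj
    rw [Finset.card_univ] at this
    omega
  obtain ⟨g, hg, hgf⟩ := step A G hGN hGs f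
  obtain ⟨h, hh, hhg⟩ := step A' G' hGN' hGs' g
  intro hbad
  apply hbad g (hGF hg) h (hGF' hh)
  ext i
  rw [mem_agrF, Finset.mem_inter]
  constructor
  · intro e
    have hiA' : i ∈ A' := by
      by_contra hcon
      exact hhg i hcon e.symm
    refine ⟨?_, hiA'⟩
    by_contra hcon
    have e1 := mem_agrF.mp (hGf' h hh hiA')
    exact hgf i hcon (e.trans e1.symm)
  · rintro ⟨h1, h2⟩
    exact (mem_agrF.mp (hGf g hg h1)).symm.trans (mem_agrF.mp (hGf' h hh h2))

/-- A good set is the exact agreement set of two distinct members. -/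
lemma exists_pair_of_good {N : ℕ} (hN : 2 ≤ N) {F : Finset (I → α)} (hF : F.Nonempty)
    {A : Finset I} (hA : Good N F A) : ∃ g ∈ F, ∃ h ∈ F, g ≠ h ∧ agrF g h = A := by
  obtain ⟨f, hf⟩ := hF
  obtain ⟨G, hGF, hGN, hGf, hGs⟩ := hA f hf
  obtain ⟨g, hg, h, hh, hne⟩ := Finset.one_lt_card.mp (show 1 < G.card by omega)
  exact ⟨g, hGF hg, h, hGF hh, hne, hGs g hg h hh hne⟩

end Pool.Agent.PF84
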