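import Pool.Agent.PF84.Modular

/-!
Passing from `n = D + P - 1` to larger `n`, and the two trivial lower bounds
`(n-t)!` (a coset of a pointwise stabiliser) and `(t-1)!` (a maximal family).
-/

namespace Pool.Agent.PF84

open Finset

lemma agr_decompose {n : ℕ} (a : Fin (n + 1)) (σ τ : Equiv.Perm (Fin n)) :
    (agr (Equiv.Perm.decomposeFin.symm (a, σ)) (Equiv.Perm.decomposeFin.symm (a, τ))).card
      = (agr σ τ).card + 1 := by
  classical
  have h : agr (Equiv.Perm.decomposeFin.symm (a, σ)) (Equiv.Perm.decomposeFin.symm (a, τ))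
      = insert 0 ((agr σ τ).map (Fin.succEmb n)) := by
    ext i
    rw [mem_agr, Finset.mem_insert, Finset.mem_map]
    refine Fin.cases ?_ (fun j => ?_) i
    · simp
    · rw [Equiv.Perm.decomposeFin_symm_apply_succ, Equiv.Perm.decomposeFin_symm_apply_succ]
      constructor
      · intro h
        right
        refine ⟨j, ?_, rfl⟩
        rw [mem_agr]
        have := (Equiv.swap 0 a).injective h
        exact Fin.succ_injective _ this
      · rintro (h | ⟨k, hk, hk'⟩)
        · exact absurd h (Fin.succ_ne_zero j)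
        · have : k = j := Fin.succ_injective _ hk'
          subst this
          rw [mem_agr] at hk
          rw [hk]
  rw [h, Finset.card_insert_of_notMem, Finset.card_map]
  rw [Finset.mem_map]
  rintro ⟨k, _, hk⟩
  exact Fin.succ_ne_zero k hk

/-- If every family in `S_n` without two members agreeing at exactly `n - D` points has at most
`M` members, then every family in `S_(n+1)` without two members agreeing at exactly `n + 1 - D`
points has at most `(n+1) M` members. -/
lemma card_step (n D M : ℕ) (hDn : D ≤ n)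
    (hM : ∀ F : Finset (Equiv.Perm (Fin n)),
      (∀ σ ∈ F, ∀ τ ∈ F, σ ≠ τ → (agr σ τ).card ≠ n - D) → F.card ≤ M)
    (F : Finset (Equiv.Perm (Fin (n + 1))))
    (hF : ∀ σ ∈ F, ∀ τ ∈ F, σ ≠ τ → (agr σ τ).card ≠ n + 1 - D) : F.card ≤ (n + 1) * M := by
  classical
  have h1 : F.card = ∑ a : Fin (n + 1),
      (F.filter (fun σ => (Equiv.Perm.decomposeFin σ).1 = a)).card := by
    rw [← Finset.card_eq_sum_card_fiberwise]
    intro σ _; simp
  rw [h1]
  have h2 : ∀ a ∈ (Finset.univ : Finset (Fin (n + 1))),
      (F.filter (fun σ => (Equiv.Perm.decomposeFin σ).1 = a)).card ≤ M := by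
    intro a _
    have h3 : (F.filter (fun σ => (Equiv.Perm.decomposeFin σ).1 = a)).card
        = ((F.filter (fun σ => (Equiv.Perm.decomposeFin σ).1 = a)).image
          (fun σ => (Equiv.Perm.decomposeFin σ).2)).card := by
      rw [Finset.card_image_of_injOn]
      intro σ hσ τ hτ hστ
      rw [Finset.mem_coe, Finset.mem_filter] at hσ hτ
      apply Equiv.Perm.decomposeFin.injective
      exact Prod.ext (hσ.2.trans hτ.2.symm) hστ
    rw [h3]
    apply hM
    intro σ hσ τ hτ hne
    rw [Finset.mem_image] at hσ hτ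
    obtain ⟨σ', hσ', rfl⟩ := hσ
    obtain ⟨τ', hτ', rfl⟩ := hτ
    rw [Finset.mem_filter] at hσ' hτ'
    have h4 : σ' = Equiv.Perm.decomposeFin.symm (a, (Equiv.Perm.decomposeFin σ').2) := by
      rw [← hσ'.2]; simp
    have h5 : τ' = Equiv.Perm.decomposeFin.symm (a, (Equiv.Perm.decomposeFin τ').2) := by
      rw [← hτ'.2]; simp
    have h6 := hF σ' hσ'.1 τ' hτ'.1 (fun h => hne (by rw [h]))
    rw [h4, h5, agr_decompose] at h6
    omega
  calc ∑ a : Fin (n + 1), (F.filter (fun σ => (Equiv.Perm.decomposeFin σ).1 = a)).card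
      ≤ ∑ _a : Fin (n + 1), M := Finset.sum_le_sum h2
    _ = (n + 1) * M := by simp

/-- The bound for `n ≥ D + P - 1`. -/
theorem card_le_of_ge (p e P D : ℕ) (hp : p.Prime) (hPe : P = p ^ e) (hD : 1 ≤ D) (hPD : P ∣ D)
    (k : ℕ) (F : Finset (Equiv.Perm (Fin (D + P - 1 + k))))
    (hF : ∀ σ ∈ F, ∀ τ ∈ F, σ ≠ τ → (agr σ τ).card ≠ D + P - 1 + k - D) :
    F.card * P.factorial ≤ (D + P - 1).choose P * (D + P - 1 + k).factorial := by
  have hP : 0 < P := by rw [hPe]; exact pow_pos hp.pos e
  have key : ∀ k : ℕ, ∀ F : Finset (Equiv.Perm (Fin (D + P - 1 + k))),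
      (∀ σ ∈ F, ∀ τ ∈ F, σ ≠ τ → (agr σ τ).card ≠ D + P - 1 + k - D) →
      F.card ≤ (D + P - 1 + k).descFactorial k *
        (((D + P - 1).choose (D - 1)) ^ 2 * (D - 1).factorial) := by
    intro k
    induction k with
    | zero =>
      intro F hF
      have := card_le_of_lt p e D (D + P - 1) hp hD (hPe ▸ hPD) (by omega) (by omega) F (by
        intro σ hσ τ hτ h
        have := hF σ hσ τ hτ h
        simpa using this)
      simpa using this
    | succ k ih =>
      intro F hF
      have h1 := card_step (D + P - 1 + k) D _ (by omega) ih F (by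
        intro σ hσ τ hτ h
        have := hF σ hσ τ hτ h
        have e1 : D + P - 1 + (k + 1) - D = D + P - 1 + k + 1 - D := by omega
        rw [← e1]; exact this)
      have e2 : (D + P - 1 + (k + 1)).descFactorial (k + 1)
          = (D + P - 1 + k + 1) * (D + P - 1 + k).descFactorial k := by
        have : D + P - 1 + (k + 1) = (D + P - 1 + k) + 1 := by omega
        rw [this, Nat.succ_descFactorial_succ]
      rw [e2, mul_assoc]
      exact h1
  have h := key k F hF
  have h2 : (D + P - 1).factorial * (D + P - 1 + k).descFactorial k = (D + P - 1 + k).factorial := by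
    have := Nat.factorial_mul_descFactorial (n := D + P - 1 + k) (k := k) (by omega)
    rw [show D + P - 1 + k - k = D + P - 1 by omega] at this
    exact this
  have h3 : (D + P - 1).choose (D - 1) * (D - 1).factorial * P.factorial = (D + P - 1).factorial := by
    have := Nat.choose_mul_factorial_mul_factorial (n := D + P - 1) (k := D - 1) (by omega)
    rw [show D + P - 1 - (D - 1) = P by omega] at this
    exact this
  have h4 : (D + P - 1).choose P = (D + P - 1).choose (D - 1) := by
    rw [← Nat.choose_symm (show P ≤ D + P - 1 by omega)]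
    congr 1
    omega
  rw [h4]
  calc F.card * P.factorial
      ≤ ((D + P - 1 + k).descFactorial k * (((D + P - 1).choose (D - 1)) ^ 2 * (D - 1).factorial)) * P.factorial :=
        Nat.mul_le_mul_right _ h
    _ = (D + P - 1).choose (D - 1) * ((((D + P - 1).choose (D - 1)) * (D - 1).factorial * P.factorial) * (D + P - 1 + k).descFactorial k) := by ring
    _ = (D + P - 1).choose (D - 1) * (D + P - 1 + k).factorial := by rw [h3, h2]

/-- The number of permutations agreeing with `σ` on `J`. -/
lemma card_agree_on {n : ℕ} (σ : Equiv.Perm (Fin n)) (J : Finset (Fin n)) :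
    ((Finset.univ : Finset (Equiv.Perm (Fin n))).filter (fun τ => ∀ i ∈ J, τ i = σ i)).card
      = (n - J.card).factorial := by
  classical
  have h1 : ((Finset.univ : Finset (Equiv.Perm (Fin n))).filter (fun τ => ∀ i ∈ J, τ i = σ i)).card
      = ((Finset.univ : Finset (Equiv.Perm (Fin n))).filter (fun τ => ∀ i, ¬ (i ∉ J) → τ i = i)).card := by
    apply Finset.card_bij (fun τ _ => σ⁻¹ * τ)
    · intro τ hτ
      rw [Finset.mem_filter] at hτ ⊢
      refine ⟨Finset.mem_univ _, ?_⟩
      intro i hi
      rw [Equiv.Perm.mul_apply, hτ.2 i (not_not.mp hi)]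
      simp
    · intro a _ b _ hab
      exact mul_left_cancel hab
    · intro τ hτ
      rw [Finset.mem_filter] at hτ
      refine ⟨σ * τ, ?_, by simp⟩
      rw [Finset.mem_filter]
      refine ⟨Finset.mem_univ _, ?_⟩
      intro i hi
      rw [Equiv.Perm.mul_apply, hτ.2 i (not_not.mpr hi)]
  rw [h1]
  have h2 := Fintype.card_congr (Equiv.Perm.subtypeEquivSubtypePerm (fun i : Fin n => i ∉ J))
  rw [Fintype.card_perm] at h2
  rw [← Fintype.card_subtype]
  rw [← h2]
  congr 1
  rw [Fintype.card_subtype_compl]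
  simp

/-- The pointwise stabiliser family. -/
lemma exists_stab (n t : ℕ) (ht : 1 ≤ t) (htn : t ≤ n) :
    ∃ F : Finset (Equiv.Perm (Fin n)),
      (∀ σ ∈ F, ∀ τ ∈ F, σ ≠ τ → (agr σ τ).card ≠ t - 1) ∧ F.card = (n - t).factorial := by
  classical
  obtain ⟨J, hJ1, hJ⟩ := Finset.exists_subset_card_eq (s := (Finset.univ : Finset (Fin n))) (n := t)
    (by simpa using htn)
  refine ⟨Finset.univ.filter (fun τ => ∀ i ∈ J, τ i = (1 : Equiv.Perm (Fin n)) i), ?_, ?_⟩
  · intro σ hσ τ hτ _ h
    rw [Finset.mem_filter] at hσ hτ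
    have : J ⊆ agr σ τ := by
      intro i hi
      rw [mem_agr, hσ.2 i hi, hτ.2 i hi]
    have := Finset.card_le_card this
    omega
  · rw [card_agree_on, hJ]

/-- A maximal family has at least `(t-1)!` members. -/
lemma exists_greedy (n t : ℕ) (ht : 1 ≤ t) (htn : t ≤ n) :
    ∃ F : Finset (Equiv.Perm (Fin n)),
      (∀ σ ∈ F, ∀ τ ∈ F, σ ≠ τ → (agr σ τ).card ≠ t - 1) ∧ (t - 1).factorial ≤ F.card := by
  classical
  let good : Finset (Finset (Equiv.Perm (Fin n))) := Finset.univ.filter
    (fun F => ∀ σ ∈ F, ∀ τ ∈ F, σ ≠ τ → (agr σ τ).card ≠ t - 1)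
  have hne : good.Nonempty := ⟨∅, by simp [good]⟩
  obtain ⟨F, hFg, hFmax⟩ := Finset.exists_max_image good Finset.card hne
  have hF : ∀ σ ∈ F, ∀ τ ∈ F, σ ≠ τ → (agr σ τ).card ≠ t - 1 := (Finset.mem_filter.mp hFg).2
  refine ⟨F, hF, ?_⟩
  -- every permutation agrees with a member of F at t-1 or more points
  have hcov : ∀ τ : Equiv.Perm (Fin n), ∃ σ ∈ F, t - 1 ≤ (agr σ τ).card := by
    intro τ
    by_cases hτ : τ ∈ F
    · exact ⟨τ, hτ, by rw [agr_self]; omega⟩
    · by_contra hcon
      push Not at hcon
      have : insert τ F ∈ good := by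
        rw [Finset.mem_filter]
        refine ⟨Finset.mem_univ _, ?_⟩
        intro a ha b hb hab
        rw [Finset.mem_insert] at ha hb
        rcases ha with rfl | ha <;> rcases hb with rfl | hb
        · exact absurd rfl hab
        · have := hcon b hb
          have e : agr a b = agr b a := by
            ext i; rw [mem_agr, mem_agr]; exact eq_comm
          rw [e]; omega
        · have := hcon a ha
          omega
        · exact hF a ha b hb hab
      have h1 := hFmax _ this
      rw [Finset.card_insert_of_notMem hτ] at h1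
      omega
  have h1 : (Finset.univ : Finset (Equiv.Perm (Fin n))) ⊆
      (F ×ˢ Finset.powersetCard (t - 1) (Finset.univ : Finset (Fin n))).biUnion
        (fun x => Finset.univ.filter (fun τ => ∀ i ∈ x.2, τ i = x.1 i)) := by
    intro τ _
    obtain ⟨σ, hσ, hc⟩ := hcov τ
    obtain ⟨J, hJ1, hJ2⟩ := Finset.exists_subset_card_eq hc
    rw [Finset.mem_biUnion]
    refine ⟨(σ, J), ?_, ?_⟩
    · rw [Finset.mem_product, Finset.mem_powersetCard]
      exact ⟨hσ, Finset.subset_univ _, hJ2⟩
    · rw [Finset.mem_filter]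
      refine ⟨Finset.mem_univ _, ?_⟩
      intro i hi
      exact ((mem_agr σ τ i).mp (hJ1 hi)).symm
  have h2 := (Finset.card_le_card h1).trans Finset.card_biUnion_le
  have h3 : ∑ x ∈ F ×ˢ Finset.powersetCard (t - 1) (Finset.univ : Finset (Fin n)),
      ((Finset.univ : Finset (Equiv.Perm (Fin n))).filter (fun τ => ∀ i ∈ x.2, τ i = x.1 i)).card
      = F.card * (n.choose (t - 1) * (n - (t - 1)).factorial) := by
    have : ∀ x ∈ F ×ˢ Finset.powersetCard (t - 1) (Finset.univ : Finset (Fin n)),
        ((Finset.univ : Finset (Equiv.Perm (Fin n))).filter (fun τ => ∀ i ∈ x.2, τ i = x.1 i)).card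
        = (n - (t - 1)).factorial := by
      intro x hx
      rw [Finset.mem_product, Finset.mem_powersetCard] at hx
      rw [card_agree_on, hx.2.2]
    rw [Finset.sum_congr rfl this, Finset.sum_const, Finset.card_product, Finset.card_powersetCard]
    simp
    ring
  rw [h3, Finset.card_univ, Fintype.card_perm, Fintype.card_fin] at h2
  have h4 := Nat.choose_mul_factorial_mul_factorial (n := n) (k := t - 1) (by omega)
  have h5 : (t - 1).factorial * (n.choose (t - 1) * (n - (t - 1)).factorial)
      ≤ F.card * (n.choose (t - 1) * (n - (t - 1)).factorial) := by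
    calc (t - 1).factorial * (n.choose (t - 1) * (n - (t - 1)).factorial)
        = n.factorial := by rw [← h4]; ring
      _ ≤ _ := h2
  exact Nat.le_of_mul_le_mul_right h5 (Nat.mul_pos (Nat.choose_pos (by omega)) (Nat.factorial_pos _))

end Pool.Agent.PF84
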