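import Pool.Agent.PF84.Binom
import Pool.Agent.PF84.Homog

/-!
The modular polynomial method in the cube `I → Fin m`: if the prime power `p^e` divides `D`,
`D ≤ |I| < D + p^e`, and no two distinct members of `F` differ in exactly `D` coordinates, then
`F.card ≤ (|I| choose D-1) * m^(D-1)`.
-/

namespace Pool.Agent.PF84

open Finset

set_option linter.unusedSectionVars false

variable {I : Type} [Fintype I] [DecidableEq I] {m : ℕ}

/-- Index set: a `d`-subset `J` of coordinates with values on `J`. -/
abbrev IdxF (I : Type) [Fintype I] [DecidableEq I] (m d : ℕ) : Type :=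
  Σ J : {J : Finset I // J.card = d}, (J.1 → Fin m)

lemma card_IdxF (d : ℕ) : Fintype.card (IdxF I m d) = (Fintype.card I).choose d * m ^ d := by
  rw [Fintype.card_sigma]
  have h : ∀ J : {J : Finset I // J.card = d}, Fintype.card (J.1 → Fin m) = m ^ d := by
    intro J
    rw [Fintype.card_fun, Fintype.card_fin, Fintype.card_coe, J.2]
  simp_rw [h]
  rw [Finset.sum_const, Finset.card_univ, Fintype.card_finset_len, smul_eq_mul]

/-- restriction of a function to a set of coordinates -/
def restrF (f : I → Fin m) (J : Finset I) : J → Fin m := fun i => f i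

lemma exists_extF (d : ℕ) (hd : d ≤ Fintype.card I) : ∃ f : Finset I → Finset I,
    ∀ K : Finset I, K.card ≤ d → K ⊆ f K ∧ (f K).card = d := by
  have : ∀ K : Finset I, ∃ u : Finset I, K.card ≤ d → K ⊆ u ∧ u.card = d := by
    intro K
    by_cases h : K.card ≤ d
    · obtain ⟨u, h1, _, h3⟩ := Finset.exists_subsuperset_card_eq (Finset.subset_univ K) h
        (by rw [Finset.card_univ]; exact hd)
      exact ⟨u, fun _ => ⟨h1, h3⟩⟩
    · exact ⟨∅, fun h' => absurd h' h⟩
  choose f hf using this
  exact ⟨f, hf⟩

open Classical in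
/-- The dual vectors. -/
noncomputable def uvecF (p : ℕ) (c : ℕ → ZMod p) (ext : Finset I → Finset I) (d : ℕ)
    (f : I → Fin m) (x : IdxF I m d) : ZMod p :=
  ∑ K ∈ x.1.1.powerset.filter (fun K => ext K = x.1.1),
    c K.card * (if (∀ i : x.1.1, (i : I) ∈ K → x.2 i = f i) then 1 else 0)

open Classical in
/-- The vectors. -/
noncomputable def wvecF (p : ℕ) (d : ℕ) (g : I → Fin m) (x : IdxF I m d) : ZMod p :=
  if x.2 = restrF g x.1.1 then 1 else 0

lemma pairingF (p d : ℕ) (c : ℕ → ZMod p) (hc : ∀ j, d < j → c j = 0)
    (ext : Finset I → Finset I)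
    (hext : ∀ K : Finset I, K.card ≤ d → K ⊆ ext K ∧ (ext K).card = d)
    (f g : I → Fin m) :
    ∑ x : IdxF I m d, uvecF p c ext d f x * wvecF p d g x
      = ∑ j ∈ range ((agrF f g).card + 1), ((agrF f g).card.choose j : ZMod p) * c j := by
  classical
  rw [Fintype.sum_sigma]
  have h1 : ∀ J : {J : Finset I // J.card = d},
      ∑ s : (J.1 → Fin m), uvecF p c ext d f ⟨J, s⟩ * wvecF p d g ⟨J, s⟩
      = ∑ K ∈ J.1.powerset.filter (fun K => ext K = J.1),
        (if K ⊆ agrF f g then c K.card else 0) := by
    intro J
    have h2 : ∀ s : (J.1 → Fin m), uvecF p c ext d f ⟨J, s⟩ * wvecF p d g ⟨J, s⟩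
        = if s = restrF g J.1 then uvecF p c ext d f ⟨J, s⟩ else 0 := by
      intro s
      simp only [wvecF]
      split_ifs <;> simp
    simp_rw [h2]
    rw [Finset.sum_ite_eq' Finset.univ (restrF g J.1)]
    rw [if_pos (Finset.mem_univ _)]
    unfold uvecF
    apply Finset.sum_congr rfl
    intro K hK
    rw [Finset.mem_filter, Finset.mem_powerset] at hK
    have h3 : (∀ i : J.1, (i : I) ∈ K → restrF g J.1 i = f i) ↔ K ⊆ agrF f g := by
      constructor
      · intro h i hi
        rw [mem_agrF]
        exact (h ⟨i, hK.1 hi⟩ hi).symm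
      · intro h i hi
        have := h hi
        rw [mem_agrF] at this
        exact this.symm
    simp only [h3]
    split_ifs <;> simp
  simp_rw [h1]
  -- regroup by K
  have h4 : ∑ J : {J : Finset I // J.card = d},
      ∑ K ∈ J.1.powerset.filter (fun K => ext K = J.1),
        (if K ⊆ agrF f g then c K.card else 0)
      = ∑ K ∈ (Finset.univ : Finset (Finset I)).filter (fun K => K.card ≤ d),
        (if K ⊆ agrF f g then c K.card else 0) := by
    rw [← Finset.sum_subtype (Finset.powersetCard d (Finset.univ : Finset I))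
      (p := fun J : Finset I => J.card = d)
      (f := fun J => ∑ K ∈ J.powerset.filter (fun K => ext K = J),
        (if K ⊆ agrF f g then c K.card else 0))]
    · rw [← Finset.sum_fiberwise_of_maps_to (s := (Finset.univ : Finset (Finset I)).filter
        (fun K => K.card ≤ d)) (t := Finset.powersetCard d Finset.univ) (g := ext)]
      · apply Finset.sum_congr rfl
        intro J hJ
        rw [Finset.mem_powersetCard] at hJ
        apply Finset.sum_congr _ (fun _ _ => rfl)
        ext K
        simp only [Finset.mem_filter, Finset.mem_powerset, Finset.mem_univ, true_and]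
        constructor
        · rintro ⟨h5, h6⟩
          exact ⟨le_trans (Finset.card_le_card h5) hJ.2.le, h6⟩
        · rintro ⟨h5, h6⟩
          refine ⟨?_, h6⟩
          rw [← h6]
          exact (hext K h5).1
      · intro K hK
        rw [Finset.mem_filter] at hK
        rw [Finset.mem_powersetCard]
        exact ⟨Finset.subset_univ _, (hext K hK.2).2⟩
    · intro J
      rw [Finset.mem_powersetCard]
      simp
  rw [h4]
  have h5 : ∑ K ∈ (Finset.univ : Finset (Finset I)).filter (fun K => K.card ≤ d),
        (if K ⊆ agrF f g then c K.card else 0)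
      = ∑ K ∈ (agrF f g).powerset, c K.card := by
    rw [← Finset.sum_filter]
    have h6 : ∑ K ∈ (agrF f g).powerset, c K.card
        = ∑ K ∈ (agrF f g).powerset.filter (fun K => K.card ≤ d), c K.card := by
      rw [Finset.sum_filter]
      apply Finset.sum_congr rfl
      intro K _
      split_ifs with h
      · rfl
      · exact hc _ (by omega)
    rw [h6]
    apply Finset.sum_congr _ (fun _ _ => rfl)
    ext K
    simp only [Finset.mem_filter, Finset.mem_powerset, Finset.mem_univ, true_and]
    tauto
  rw [h5, Finset.sum_powerset_apply_card]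
  apply Finset.sum_congr rfl
  intro j _
  rw [nsmul_eq_mul]

lemma agrF_card_lt {f g : I → Fin m} (h : f ≠ g) : (agrF f g).card < Fintype.card I := by
  by_contra hc
  apply h
  have h1 : (agrF f g).card = Fintype.card I := le_antisymm (card_le_univ _) (not_lt.mp hc)
  have h2 : agrF f g = univ := (Finset.card_eq_iff_eq_univ _).mp h1
  funext i
  have : i ∈ agrF f g := by rw [h2]; simp
  rwa [mem_agrF] at this

lemma agrF_self (f : I → Fin m) : (agrF f f).card = Fintype.card I := by
  simp [agrF]

/-- The bound in the cube. -/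
theorem fun_card_le (p e D : ℕ) (hp : p.Prime) (hD : 1 ≤ D) (hPD : p ^ e ∣ D)
    (hDn : D ≤ Fintype.card I) (hn : Fintype.card I < D + p ^ e) (F : Finset (I → Fin m))
    (hF : ∀ f ∈ F, ∀ g ∈ F, f ≠ g → (agrF f g).card ≠ Fintype.card I - D) :
    F.card ≤ (Fintype.card I).choose (D - 1) * m ^ (D - 1) := by
  classical
  have : Fact p.Prime := ⟨hp⟩
  obtain ⟨ext, hext⟩ := exists_extF (I := I) (D - 1) (by omega)
  have hc : ∀ j, D - 1 < j → coef p (Fintype.card I) D j = 0 := by
    intro j hj
    unfold coef
    rw [if_neg (by omega)]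
  have hpair : ∀ f ∈ F, ∀ g ∈ F, ∑ x : IdxF I m (D - 1),
      uvecF p (coef p (Fintype.card I) D) ext (D - 1) f x * wvecF p (D - 1) g x
      = if f = g then (-1) ^ (D - 1) else 0 := by
    intro f hf g hg
    rw [pairingF p (D - 1) (coef p (Fintype.card I) D) hc ext hext f g]
    change q p (Fintype.card I) D (agrF f g).card = _
    by_cases h : f = g
    · subst h
      rw [agrF_self, q_top p (Fintype.card I) D hD hDn]
      simp
    · rw [if_neg h]
      exact q_vanish p e (Fintype.card I) D _ hp hD hPD hDn hn (agrF_card_lt h) (hF f hf g hg h)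
  have hli : LinearIndependent (ZMod p) (fun g : F => wvecF p (D - 1) (g : I → Fin m)) := by
    rw [Fintype.linearIndependent_iff]
    intro c' hg f
    have h1 : ∑ x : IdxF I m (D - 1), uvecF p (coef p (Fintype.card I) D) ext (D - 1) f x *
        (∑ g : F, c' g • wvecF p (D - 1) (g : I → Fin m)) x = 0 := by
      rw [hg]; simp
    have h2 : ∑ x : IdxF I m (D - 1), uvecF p (coef p (Fintype.card I) D) ext (D - 1) f x *
        (∑ g : F, c' g • wvecF p (D - 1) (g : I → Fin m)) x
        = ∑ g : F, c' g * ∑ x : IdxF I m (D - 1),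
          uvecF p (coef p (Fintype.card I) D) ext (D - 1) f x * wvecF p (D - 1) (g : I → Fin m) x := by
      simp_rw [Finset.sum_apply, Pi.smul_apply, smul_eq_mul, Finset.mul_sum]
      rw [Finset.sum_comm]
      apply Finset.sum_congr rfl
      intro g _
      apply Finset.sum_congr rfl
      intro x _
      ring
    rw [h2] at h1
    have h3 : ∀ g : F, c' g * ∑ x : IdxF I m (D - 1),
        uvecF p (coef p (Fintype.card I) D) ext (D - 1) f x *
          wvecF p (D - 1) (g : I → Fin m) x
          = if f = g then c' g * (-1) ^ (D - 1) else 0 := by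
      intro g
      rw [hpair f f.2 g g.2]
      by_cases h : f = g
      · subst h; simp
      · rw [if_neg h, if_neg (fun h' => h (Subtype.ext h'))]; simp
    simp_rw [h3] at h1
    rw [Finset.sum_ite_eq Finset.univ f, if_pos (Finset.mem_univ _)] at h1
    rcases mul_eq_zero.mp h1 with h4 | h4
    · exact h4
    · exact absurd h4 (pow_ne_zero _ (neg_ne_zero.mpr one_ne_zero))
  have := hli.fintype_card_le_finrank
  rw [Module.finrank_fintype_fun_eq_card, card_IdxF, Fintype.card_coe] at this
  exact this

end Pool.Agent.PF84
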