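import Pool.Agent.PF84.Modular

/-!
The Reed-Solomon lower bound: for a prime `q ≥ n` and `1 ≤ D` there is a family of at least
`n!/q^(D-1)` permutations, any two of which differ at more than `D` points.
-/

namespace Pool.Agent.PF84

open Finset

/-- A vector supported on at most `D` points of a field and orthogonal to `1, x, ..., x^(D-1)`
vanishes. -/
lemma vandermonde_zero {K : Type*} [Field K] {ι : Type*} [DecidableEq ι] (X : Finset ι)
    (pt : ι → K) (hpt : Set.InjOn pt X) (δ : ι → K) (D : ℕ) (hX : X.card ≤ D)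
    (h : ∀ j < D, ∑ x ∈ X, δ x * pt x ^ j = 0) : ∀ x ∈ X, δ x = 0 := by
  classical
  intro x₀ hx₀
  let P : Polynomial K := ∏ x ∈ X.erase x₀, (Polynomial.X - Polynomial.C (pt x))
  have hdeg : P.natDegree < D := by
    have h1 : P.natDegree = (X.erase x₀).card := by
      rw [Polynomial.natDegree_prod_of_monic _ _ (fun x _ => Polynomial.monic_X_sub_C _)]
      simp
    rw [h1, Finset.card_erase_of_mem hx₀]
    have := Finset.card_pos.mpr ⟨x₀, hx₀⟩
    omega
  have h2 : ∑ x ∈ X, δ x * P.eval (pt x) = 0 := by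
    have h3 : ∀ x ∈ X, δ x * P.eval (pt x) = ∑ j ∈ range D, P.coeff j * (δ x * pt x ^ j) := by
      intro x _
      rw [Polynomial.eval_eq_sum_range' hdeg, Finset.mul_sum]
      apply Finset.sum_congr rfl
      intro j _
      ring
    rw [Finset.sum_congr rfl h3, Finset.sum_comm]
    apply Finset.sum_eq_zero
    intro j hj
    rw [← Finset.mul_sum, h j (mem_range.mp hj), mul_zero]
  have h4 : ∑ x ∈ X, δ x * P.eval (pt x) = δ x₀ * P.eval (pt x₀) := by
    apply Finset.sum_eq_single_of_mem x₀ hx₀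
    intro x hx hne
    have : P.eval (pt x) = 0 := by
      rw [Polynomial.eval_prod]
      apply Finset.prod_eq_zero (Finset.mem_erase.mpr ⟨hne, hx⟩)
      simp
    rw [this, mul_zero]
  rw [h4] at h2
  rcases mul_eq_zero.mp h2 with h5 | h5
  · exact h5
  · exfalso
    rw [Polynomial.eval_prod, Finset.prod_eq_zero_iff] at h5
    obtain ⟨x, hx, hx'⟩ := h5
    rw [Finset.mem_erase] at hx
    simp only [Polynomial.eval_sub, Polynomial.eval_X, Polynomial.eval_C] at hx'
    exact hx.1 (hpt hx.2 hx₀ (sub_eq_zero.mp hx').symm)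

theorem exists_rs (n D q : ℕ) (hq : q.Prime) (hnq : n ≤ q) (hD : 1 ≤ D) :
    ∃ F : Finset (Equiv.Perm (Fin n)),
      (∀ σ ∈ F, ∀ τ ∈ F, σ ≠ τ → D < (Finset.univ.filter fun i => σ i ≠ τ i).card) ∧
      n.factorial ≤ F.card * q ^ (D - 1) := by
  classical
  have : Fact q.Prime := ⟨hq⟩
  let φ : Equiv.Perm (Fin n) → (Fin (D - 1) → ZMod q) :=
    fun σ j => ∑ x : Fin n, ((σ x : ℕ) : ZMod q) * ((x : ℕ) : ZMod q) ^ ((j : ℕ) + 1)
  have hne : (Finset.univ : Finset (Fin (D - 1) → ZMod q)).Nonempty := ⟨0, Finset.mem_univ _⟩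
  obtain ⟨y, _, hy⟩ := Finset.exists_max_image (Finset.univ : Finset (Fin (D - 1) → ZMod q))
    (fun y => ((Finset.univ : Finset (Equiv.Perm (Fin n))).filter (fun σ => φ σ = y)).card) hne
  refine ⟨Finset.univ.filter (fun σ => φ σ = y), ?_, ?_⟩
  · intro σ hσ τ hτ hne'
    rw [Finset.mem_filter] at hσ hτ
    by_contra hcon
    push Not at hcon
    have hφ : φ σ = φ τ := hσ.2.trans hτ.2.symm
    set X := Finset.univ.filter (fun i => σ i ≠ τ i) with hX
    have hinj : Set.InjOn (fun x : Fin n => ((x : ℕ) : ZMod q)) (X : Set (Fin n)) := by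
      intro a _ b _ hab
      simp only at hab
      rw [ZMod.natCast_eq_natCast_iff'] at hab
      rw [Nat.mod_eq_of_lt (lt_of_lt_of_le a.2 hnq), Nat.mod_eq_of_lt (lt_of_lt_of_le b.2 hnq)] at hab
      exact Fin.ext hab
    have hz := vandermonde_zero X (fun x : Fin n => ((x : ℕ) : ZMod q)) hinj
      (fun x => ((σ x : ℕ) : ZMod q) - ((τ x : ℕ) : ZMod q)) D hcon (by
      intro j hj
      have h1 : ∑ x ∈ X, (((σ x : ℕ) : ZMod q) - ((τ x : ℕ) : ZMod q)) * ((x : ℕ) : ZMod q) ^ j
          = ∑ x : Fin n, (((σ x : ℕ) : ZMod q) - ((τ x : ℕ) : ZMod q)) * ((x : ℕ) : ZMod q) ^ j := by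
        apply Finset.sum_subset (Finset.subset_univ _)
        intro x _ hx
        rw [hX, Finset.mem_filter] at hx
        push Not at hx
        rw [hx (Finset.mem_univ _)]
        simp
      rw [h1]
      simp_rw [sub_mul]
      rw [Finset.sum_sub_distrib, sub_eq_zero]
      cases j with
      | zero =>
        simp only [pow_zero, mul_one]
        rw [Equiv.sum_comp σ (fun x : Fin n => ((x : ℕ) : ZMod q)),
          Equiv.sum_comp τ (fun x : Fin n => ((x : ℕ) : ZMod q))]
      | succ j =>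
        exact congrFun hφ ⟨j, by omega⟩)
    apply hne'
    ext i
    by_cases hi : σ i = τ i
    · rw [hi]
    · have h2 := hz i (by rw [hX, Finset.mem_filter]; exact ⟨Finset.mem_univ _, hi⟩)
      rw [sub_eq_zero, ZMod.natCast_eq_natCast_iff',
        Nat.mod_eq_of_lt (lt_of_lt_of_le (σ i).2 hnq),
        Nat.mod_eq_of_lt (lt_of_lt_of_le (τ i).2 hnq)] at h2
      exact h2
  · have h1 : (Finset.univ : Finset (Equiv.Perm (Fin n))).card = ∑ y : Fin (D - 1) → ZMod q,
        ((Finset.univ : Finset (Equiv.Perm (Fin n))).filter (fun σ => φ σ = y)).card :=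
      Finset.card_eq_sum_card_fiberwise (fun _ _ => Finset.mem_univ _)
    rw [Finset.card_univ, Fintype.card_perm, Fintype.card_fin] at h1
    rw [h1]
    calc ∑ y : Fin (D - 1) → ZMod q,
        ((Finset.univ : Finset (Equiv.Perm (Fin n))).filter (fun σ => φ σ = y)).card
        ≤ ∑ _y' : Fin (D - 1) → ZMod q,
        ((Finset.univ : Finset (Equiv.Perm (Fin n))).filter (fun σ => φ σ = y)).card :=
          Finset.sum_le_sum hy
      _ = _ := by
        rw [Finset.sum_const, Finset.card_univ, Fintype.card_fun, ZMod.card, Fintype.card_fin,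
          smul_eq_mul, mul_comm]

end Pool.Agent.PF84
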