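import Pool.Agent.PF84.Embed
import Pool.Agent.PF84.ModFun

/-!
The uniform bound `|F| n^P ≤ (16 D)^P n!` for `D = c P`, `c ≥ 3`, `P` a prime power.
-/

namespace Pool.Agent.PF84

open Finset

set_option linter.unusedSectionVars false

/-- The parameters of the block permutations obtained from `v`: every value `v b` drives `a`
sub-blocks; in the sub-block `0` both coordinates if `r = true`, and otherwise only the first. -/
def spread {k a m : ℕ} (r : Bool) (z : Fin m) (v : Fin k → Fin m) : (Fin k × Fin a) × Bool → Fin m :=
  fun x => if x.2 = false ∨ ((x.1.2 : ℕ) = 0 ∧ r = true) then v x.1.1 else z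

lemma cost_spread {k a m : ℕ} (ha : 1 ≤ a) (c : ℕ) (r : Bool) (z : Fin m) (v w : Fin k → Fin m) :
    cost c (agrF (spread (a := a) r z v) (spread r z w))ᶜ
      = (3 * a + (if r then c else 0)) * (Finset.univ.filter fun b => v b ≠ w b).card := by
  classical
  set dis := Finset.univ.filter fun b => v b ≠ w b with hdis
  have h1 : touched (agrF (spread (a := a) r z v) (spread r z w))ᶜ = dis ×ˢ Finset.univ := by
    ext ⟨b, s⟩
    rw [mem_touched, Finset.mem_compl, Finset.mem_compl, mem_agrF, mem_agrF, Finset.mem_product,
      hdis, Finset.mem_filter]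
    simp only [spread, true_or, if_true, Bool.true_eq_false, false_or]
    constructor
    · rintro (h | h)
      · exact ⟨⟨Finset.mem_univ _, h⟩, Finset.mem_univ _⟩
      · refine ⟨⟨Finset.mem_univ _, ?_⟩, Finset.mem_univ _⟩
        intro h'
        apply h
        rw [h']
    · rintro ⟨⟨_, h⟩, _⟩
      exact Or.inl h
  have h2 : full (agrF (spread (a := a) r z v) (spread r z w))ᶜ
      = dis ×ˢ (if r then {(⟨0, by omega⟩ : Fin a)} else ∅) := by
    ext ⟨b, s⟩
    rw [mem_full, Finset.mem_compl, Finset.mem_compl, mem_agrF, mem_agrF, Finset.mem_product,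
      hdis, Finset.mem_filter]
    simp only [spread, true_or, if_true, Bool.true_eq_false, false_or]
    cases r
    · simp
    · simp only [and_true, if_true, Finset.mem_singleton, Finset.mem_univ, true_and]
      constructor
      · rintro ⟨h3, h4⟩
        refine ⟨h3, ?_⟩
        by_contra hs
        apply h4
        have : ¬ (s : ℕ) = 0 := fun h => hs (Fin.ext h)
        rw [if_neg this, if_neg this]
      · rintro ⟨h3, rfl⟩
        refine ⟨h3, ?_⟩
        simpa using h3
  unfold cost
  rw [h1, h2, Finset.card_product, Finset.card_product, Finset.card_univ, Fintype.card_fin]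
  cases r
  · simp
    ring
  · simp
    ring

/-- The uniform upper bound. -/
theorem uniform (p e P c n : ℕ) (hp : p.Prime) (hPe : P = p ^ e) (hc : 3 ≤ c) (hn : c * P ≤ n)
    (F : Finset (Equiv.Perm (Fin n)))
    (hF : ∀ σ ∈ F, ∀ τ ∈ F, σ ≠ τ → (agr σ τ).card ≠ n - c * P) :
    F.card * n ^ P ≤ (16 * (c * P)) ^ P * n.factorial := by
  classical
  have hP : 1 ≤ P := by rw [hPe]; exact Nat.one_le_pow _ _ hp.pos
  set k := 2 * P - 1 with hk
  set a := c / 3 with ha
  have ha1 : 1 ≤ a := by omega
  have hk1 : 1 ≤ k := by omega
  set N := k * a with hN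
  have hN1 : 1 ≤ N := Nat.mul_pos hk1 ha1
  have hN3 : 3 * N ≤ 2 * (c * P) := by
    have h1 : 3 * a ≤ c := Nat.mul_div_le c 3
    calc 3 * N = k * (3 * a) := by rw [hN]; ring
      _ ≤ (2 * P) * c := by gcongr; omega
      _ = 2 * (c * P) := by ring
  by_cases hsmall : n < 3 * N
  · have h1 : F.card ≤ n.factorial := by
      calc F.card ≤ Fintype.card (Equiv.Perm (Fin n)) := Finset.card_le_univ F
        _ = n.factorial := by rw [Fintype.card_perm, Fintype.card_fin]
    calc F.card * n ^ P ≤ n.factorial * (16 * (c * P)) ^ P := by gcongr; omega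
      _ = _ := by ring
  · push Not at hsmall
    set m := n / (3 * N) with hm
    have hm1 : 1 ≤ m := (Nat.one_le_div_iff (by omega)).mpr hsmall
    have hmn : 3 * N * m ≤ n := Nat.mul_div_le n (3 * N)
    have hnm : n ≤ 6 * N * m := by
      have := Nat.lt_mul_div_succ n (show 0 < 3 * N by omega)
      rw [← hm] at this
      have h2 : 3 * N * (m + 1) ≤ 6 * N * m := by nlinarith
      omega
    have hcard : Fintype.card ((Fin k × Fin a) × Blk m) ≤ Fintype.card (Fin n) := by
      rw [Fintype.card_prod, Fintype.card_prod, Fintype.card_sum, Fintype.card_prod,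
        Fintype.card_bool, Fintype.card_fin, Fintype.card_fin, Fintype.card_fin, Fintype.card_fin,
        Fintype.card_unit, ← hN]
      nlinarith
    obtain ⟨ι⟩ := Function.Embedding.nonempty_of_card_le hcard
    -- the remainder
    obtain ⟨two, r, hr⟩ : ∃ (two r : Bool), c = 3 * a + (if r then extra two else 0) := by
      have h3 : c % 3 = 0 ∨ c % 3 = 1 ∨ c % 3 = 2 := by omega
      rcases h3 with h | h | h
      · exact ⟨false, false, by simp; omega⟩
      · exact ⟨false, true, by simp [extra]; omega⟩
      · exact ⟨true, true, by simp [extra]; omega⟩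
    have z : Fin m := ⟨0, by omega⟩
    obtain ⟨g, hg⟩ := exists_translate (fun v : Fin k → Fin m => ph two ι (spread r z v)) F
    have hX := fun_card_le (I := Fin k) p e P hp hP (by rw [hPe]) (by rw [Fintype.card_fin]; omega)
      (by rw [Fintype.card_fin, ← hPe]; omega)
      (Finset.univ.filter fun v : Fin k → Fin m => g * ph two ι (spread r z v) ∈ F) (by
      intro v hv w hw hvw hcard'
      rw [Finset.mem_filter] at hv hw
      rw [Fintype.card_fin] at hcard'
      -- the Hamming distance is P
      have hdis : (Finset.univ.filter fun b => v b ≠ w b).card = P := by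
        have h1 : (agrF v w).card + (Finset.univ.filter fun b => v b ≠ w b).card = k := by
          unfold agrF
          rw [Finset.card_filter_add_card_filter_not]
          simp
        omega
      have hcost : cost (extra two) (agrF (spread (a := a) r z v) (spread r z w))ᶜ = c * P := by
        rw [cost_spread ha1, hdis, ← hr]
      have hne : g * ph two ι (spread r z v) ≠ g * ph two ι (spread r z w) := by
        intro h
        have h' := mul_left_cancel h
        have h2 := card_ph_diff two ι (spread (a := a) r z v) (spread r z w)
        rw [h', hcost] at h2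
        simp at h2
        omega
      apply hF _ hv.2 _ hw.2 hne
      have h3 : (agr (g * ph two ι (spread r z v)) (g * ph two ι (spread r z w))).card
          + (Finset.univ.filter fun i => ph two ι (spread r z v) i ≠ ph two ι (spread r z w) i).card
            = n := by
        have h4 : agr (g * ph two ι (spread r z v)) (g * ph two ι (spread r z w))
            = Finset.univ.filter fun i => ph two ι (spread r z v) i = ph two ι (spread r z w) i := by
          ext i
          rw [mem_agr, Finset.mem_filter]
          simp
        rw [h4, Finset.card_filter_add_card_filter_not]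
        simp
      rw [card_ph_diff, hcost] at h3
      omega)
    rw [Fintype.card_fun, Fintype.card_fin, Fintype.card_fin] at hg
    rw [Fintype.card_fin] at hX
    have h5 : m ^ (P - 1) * (m ^ P * F.card) ≤ m ^ (P - 1) * (4 ^ P * n.factorial) := by
      calc m ^ (P - 1) * (m ^ P * F.card) = m ^ k * F.card := by
            rw [← mul_assoc, ← pow_add]
            congr 2
            omega
        _ ≤ n.factorial * (Finset.univ.filter fun v : Fin k → Fin m =>
              g * ph two ι (spread r z v) ∈ F).card := hg
        _ ≤ n.factorial * (k.choose (P - 1) * m ^ (P - 1)) := by gcongr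
        _ ≤ n.factorial * (4 ^ P * m ^ (P - 1)) := by
            gcongr
            calc k.choose (P - 1) ≤ 2 ^ k := by
                  rw [← Nat.sum_range_choose]
                  exact Finset.single_le_sum (f := fun j => k.choose j) (fun _ _ => Nat.zero_le _)
                    (Finset.mem_range.mpr (by omega))
              _ ≤ 2 ^ (2 * P) := Nat.pow_le_pow_right (by norm_num) (by omega)
              _ = 4 ^ P := by rw [pow_mul]; norm_num
        _ = m ^ (P - 1) * (4 ^ P * n.factorial) := by ring
    have h6 : m ^ P * F.card ≤ 4 ^ P * n.factorial :=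
      Nat.le_of_mul_le_mul_left h5 (pow_pos (by omega) _)
    calc F.card * n ^ P ≤ F.card * (6 * N * m) ^ P := by gcongr
      _ = (m ^ P * F.card) * (6 * N) ^ P := by rw [mul_pow]; ring
      _ ≤ (4 ^ P * n.factorial) * (6 * N) ^ P := by gcongr
      _ = (4 * (6 * N)) ^ P * n.factorial := by rw [mul_pow 4]; ring
      _ ≤ (16 * (c * P)) ^ P * n.factorial := by
          gcongr ?_ ^ P * _
          omega

end Pool.Agent.PF84
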